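import Mathlib

/-!
# The reverse affine Zhang–Sobolev inequality: definitions
-/

open MeasureTheory Set Filter Topology Metric
open scoped Real InnerProductSpace

namespace Pool.Agent.N219.AZ

/-- Euclidean space of dimension `n`. -/
abbrev E (n : ℕ) := EuclideanSpace ℝ (Fin n)

/-- `ω_k = π^(k/2) / Γ(1 + k/2)`. -/
noncomputable def om (k : ℝ) : ℝ := π ^ (k / 2) / Real.Gamma (1 + k / 2)

/-- The constant `c_{n,p}`. -/
noncomputable def cst (n : ℕ) (p : ℝ) : ℝ :=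
  (n * om n * om (p - 1) / (2 * om (n + p - 2))) ^ (1 / p) * (n * om n) ^ (1 / (n : ℝ))

/-- The `L^p` norm of a scalar function or of a vector field. -/
noncomputable def lnorm {n : ℕ} {F : Type} [NormedAddCommGroup F] (p : ℝ) (f : E n → F) : ℝ :=
  (∫ x, ‖f x‖ ^ p) ^ (1 / p)

/-- The affine energy `𝓔_p` in terms of the gradient field `g = ∇ f`. -/
noncomputable def energy {n : ℕ} (p : ℝ) (g : E n → E n) : ℝ :=
  cst n p * (∫ ξ : sphere (0 : E n) 1, (lnorm p fun x => ⟪g x, (ξ : E n)⟫_ℝ) ^ (-(n : ℝ))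
    ∂(volume : Measure (E n)).toSphere) ^ (-1 / (n : ℝ))

/-- Admissible functions: `C¹` functions on `ℝⁿ` with compact support in `Ω`. -/
def Adm {n : ℕ} (Ω : Set (E n)) (f : E n → ℝ) : Prop :=
  ContDiff ℝ 1 f ∧ HasCompactSupport f ∧ tsupport f ⊆ Ω

/-- The inequality `𝓔_p f ≥ A ‖f‖_p^((n-1)/n) ‖∇f‖_p^(1/n)` holds for all admissible `f`. -/
def Valid {n : ℕ} (p : ℝ) (Ω : Set (E n)) (A : ℝ) : Prop :=
  ∀ f : E n → ℝ, Adm Ω f →
    A * lnorm p f ^ (((n : ℝ) - 1) / n) * lnorm p (gradient f) ^ (1 / (n : ℝ)) ≤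
      energy p (gradient f)

/-- `a = A_{n,p}(Ω)` is the largest constant in the inequality. -/
def BestConstant {n : ℕ} (p : ℝ) (Ω : Set (E n)) (a : ℝ) : Prop :=
  IsGreatest {A : ℝ | Valid p Ω A} a

/-- `f` belongs to `W_0^{1,p}(Ω)` and `g` is its gradient: the pair `(f, g)` is a limit in `L^p` of
pairs `(F, ∇F)`, `F` admissible. -/
def IsW0 {n : ℕ} (p : ℝ) (Ω : Set (E n)) (f : E n → ℝ) (g : E n → E n) : Prop :=
  MemLp f (ENNReal.ofReal p) ∧ MemLp g (ENNReal.ofReal p) ∧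
    ∃ F : ℕ → E n → ℝ, (∀ k, Adm Ω (F k)) ∧
      Tendsto (fun k => lnorm p (fun x => F k x - f x)) atTop (𝓝 0) ∧
      Tendsto (fun k => lnorm p (fun x => gradient (F k) x - g x)) atTop (𝓝 0)

/-- `(f, g)`, `g = ∇f`, is an extremal function for the constant `a`: a nonzero element of
`W_0^{1,p}(Ω)` with equality in the inequality. -/
def IsExtremal {n : ℕ} (p : ℝ) (Ω : Set (E n)) (a : ℝ) (f : E n → ℝ) (g : E n → E n) : Prop :=
  IsW0 p Ω f g ∧ ¬ (f =ᵐ[volume] 0) ∧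
    energy p g = a * lnorm p f ^ (((n : ℝ) - 1) / n) * lnorm p g ^ (1 / (n : ℝ))

/-- The open box with sides `L i` parallel to the vectors of the orthonormal basis `b`. -/
def Box {n : ℕ} (b : OrthonormalBasis (Fin n) ℝ (E n)) (a L : Fin n → ℝ) : Set (E n) :=
  {x | ∀ i, a i < ⟪b i, x⟫_ℝ ∧ ⟪b i, x⟫_ℝ < a i + L i}

/-- The value of `A_{n,2}` for a box with sides `L i`. -/
noncomputable def boxValue {n : ℕ} (L : Fin n → ℝ) : ℝ :=
  ((n : ℝ) ^ n * π ^ (2 * (n - 1)) / ((∏ i, L i) ^ 2 * ∑ i, 1 / L i ^ 2)) ^ (1 / (2 * (n : ℝ)))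

/-- The product of sines of a box, extended by zero. -/
noncomputable def sineF {n : ℕ} (b : OrthonormalBasis (Fin n) ℝ (E n)) (a L : Fin n → ℝ) :
    E n → ℝ :=
  (Box b a L).indicator fun x => ∏ i, Real.sin (π / L i * (⟪b i, x⟫_ℝ - a i))

/-- The gradient of the product of sines of a box, extended by zero. -/
noncomputable def sineG {n : ℕ} (b : OrthonormalBasis (Fin n) ℝ (E n)) (a L : Fin n → ℝ) :
    E n → E n :=
  (Box b a L).indicator (gradient fun x => ∏ i, Real.sin (π / L i * (⟪b i, x⟫_ℝ - a i)))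

/-- The open right triangle with vertices `0`, `(p, 0)`, `(0, q)`. -/
def Triangle (p q : ℝ) : Set (E 2) := {x | 0 < x 0 ∧ 0 < x 1 ∧ x 0 / p + x 1 / q < 1}

end Pool.Agent.N219.AZ
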