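import Pool.Agent.N219.AZ.Sph

open MeasureTheory Set Filter Topology Metric
open scoped Real InnerProductSpace Matrix MatrixOrder

namespace Pool.Agent.N219.AZ

variable {n : ℕ}

theorem om_pos {k : ℝ} (hk : 0 ≤ k) : 0 < om k := by
  unfold om
  have := Real.Gamma_pos_of_pos (s := 1 + k / 2) (by linarith)
  positivity

theorem om_one : om 1 = 2 := by
  unfold om
  have h1 : (1 : ℝ) + 1 / 2 = 1 / 2 + 1 := by ring
  rw [h1, Real.Gamma_add_one (by norm_num), Real.Gamma_one_half_eq, ← Real.sqrt_eq_rpow]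
  have : √π ≠ 0 := (Real.sqrt_pos.2 Real.pi_pos).ne'
  field_simp

theorem vol_ball (hn : 1 ≤ n) : (volume : Measure (E n)).real (ball 0 1) = om n := by
  have : Nonempty (Fin n) := ⟨⟨0, hn⟩⟩
  rw [measureReal_def, EuclideanSpace.volume_ball]
  have hG := Real.Gamma_pos_of_pos (s := (n : ℝ) / 2 + 1) (by positivity)
  simp only [ENNReal.ofReal_one, one_pow, one_mul, Fintype.card_fin]
  rw [ENNReal.toReal_ofReal (by positivity)]
  unfold om
  congr 1
  · rw [Real.sqrt_eq_rpow, ← Real.rpow_natCast, ← Real.rpow_mul Real.pi_pos.le]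
    congr 1
    ring
  · rw [add_comm]

theorem cst_two (hn : 1 ≤ n) : cst n 2 = √n * (n * om n) ^ (1 / (n : ℝ)) := by
  unfold cst
  have h1 : (2 : ℝ) - 1 = 1 := by norm_num
  have h2 : (n : ℝ) + 2 - 2 = n := by ring
  rw [h1, h2, om_one, Real.sqrt_eq_rpow]
  congr 2
  have := om_pos (k := n) (by positivity)
  field_simp

/-- the Gram matrix of a vector field -/
noncomputable def gram (b : OrthonormalBasis (Fin n) ℝ (E n)) (g : E n → E n) :
    Matrix (Fin n) (Fin n) ℝ :=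
  fun i j => ∫ x, ⟪b i, g x⟫_ℝ * ⟪b j, g x⟫_ℝ

theorem memLp_comp (b : OrthonormalBasis (Fin n) ℝ (E n)) {g : E n → E n} (hg : MemLp g 2)
    (i : Fin n) : MemLp (fun x => ⟪b i, g x⟫_ℝ) 2 :=
  hg.const_inner (b i)

theorem gram_symm (b : OrthonormalBasis (Fin n) ℝ (E n)) (g : E n → E n) (i j : Fin n) :
    gram b g i j = gram b g j i := by
  unfold gram
  congr 1
  funext x
  ring

theorem integrable_mul {u v : E n → ℝ} (hu : MemLp u 2) (hv : MemLp v 2) :
    Integrable (fun x => u x * v x) := hu.integrable_mul hv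

/-- the quadratic form -/
theorem quad_eq (b : OrthonormalBasis (Fin n) ℝ (E n)) {g : E n → E n} (hg : MemLp g 2)
    (ξ : E n) :
    ∫ x, ⟪g x, ξ⟫_ℝ ^ 2 = ∑ i, ∑ j, ⟪b i, ξ⟫_ℝ * gram b g i j * ⟪b j, ξ⟫_ℝ := by
  have h1 : ∀ x, ⟪g x, ξ⟫_ℝ ^ 2 =
      ∑ i, ∑ j, ⟪b i, ξ⟫_ℝ * (⟪b i, g x⟫_ℝ * ⟪b j, g x⟫_ℝ) * ⟪b j, ξ⟫_ℝ := by
    intro x
    have h2 : ⟪g x, ξ⟫_ℝ = ∑ i, ⟪b i, g x⟫_ℝ * ⟪b i, ξ⟫_ℝ := by
      rw [← b.sum_inner_mul_inner]
      refine Finset.sum_congr rfl fun i _ => ?_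
      rw [real_inner_comm]
    rw [h2, sq, Finset.sum_mul_sum]
    refine Finset.sum_congr rfl fun i _ => Finset.sum_congr rfl fun j _ => ?_
    ring
  simp only [h1]
  have hi : ∀ i j, Integrable (fun x => ⟪b i, ξ⟫_ℝ * (⟪b i, g x⟫_ℝ * ⟪b j, g x⟫_ℝ) * ⟪b j, ξ⟫_ℝ) :=
    fun i j => ((integrable_mul (memLp_comp b hg i) (memLp_comp b hg j)).const_mul _).mul_const _
  rw [integral_finsetSum _ (fun i _ => integrable_finsetSum _ fun j _ => hi i j)]
  refine Finset.sum_congr rfl fun i _ => ?_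
  rw [integral_finsetSum _ fun j _ => hi i j]
  refine Finset.sum_congr rfl fun j _ => ?_
  rw [integral_mul_const, integral_const_mul]
  rfl

theorem gram_trace (b : OrthonormalBasis (Fin n) ℝ (E n)) {g : E n → E n} (hg : MemLp g 2) :
    ∫ x, ‖g x‖ ^ 2 = ∑ i, gram b g i i := by
  have h1 : ∀ x, ‖g x‖ ^ 2 = ∑ i, ⟪b i, g x⟫_ℝ * ⟪b i, g x⟫_ℝ := by
    intro x
    rw [← b.sum_sq_norm_inner_right (g x)]
    refine Finset.sum_congr rfl fun i _ => ?_
    rw [Real.norm_eq_abs, sq_abs, sq]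
  simp only [h1]
  rw [integral_finsetSum _ fun i _ => integrable_mul (memLp_comp b hg i) (memLp_comp b hg i)]
  rfl

theorem lnorm_two {F : Type} [NormedAddCommGroup F] (f : E n → F) :
    lnorm 2 f = √(∫ x, ‖f x‖ ^ 2) := by
  unfold lnorm
  rw [Real.sqrt_eq_rpow]
  congr 2
  funext x
  exact Real.rpow_two _

/-- the affine energy for `p = 2` -/
theorem energy_eq (hn : 1 ≤ n) (b : OrthonormalBasis (Fin n) ℝ (E n)) {g : E n → E n}
    (hg : MemLp g 2) (hM : (gram b g).PosDef) :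
    energy 2 g = ((n : ℝ) ^ n * (gram b g).det) ^ (1 / (2 * (n : ℝ))) := by
  obtain ⟨m, rfl⟩ : ∃ m, n = m + 1 := ⟨n - 1, by omega⟩
  set M := gram b g with hMdef
  have hdet : 0 < M.det := hM.det_pos
  obtain ⟨C, hC⟩ := CStarAlgebra.nonneg_iff_eq_star_mul_self.mp hM.posSemidef.nonneg
  have hC' : M = Cᵀ * C := by
    rw [hC]; congr 1
  have hdetC : M.det = C.det ^ 2 := by
    rw [hC', Matrix.det_mul, Matrix.det_transpose, sq]
  set T : E (m + 1) →ₗ[ℝ] E (m + 1) :=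
    (b.repr.symm.toLinearEquiv : E (m + 1) →ₗ[ℝ] E (m + 1)) ∘ₗ (Matrix.toEuclideanLin C) ∘ₗ
      (b.repr.toLinearEquiv : E (m + 1) →ₗ[ℝ] E (m + 1)) with hT
  have hdetT : LinearMap.det T = C.det := by
    have h1 := LinearMap.det_conj (Matrix.toEuclideanLin C) (b.repr.symm.toLinearEquiv)
    have h2 : T = (b.repr.symm.toLinearEquiv : E (m + 1) →ₗ[ℝ] E (m + 1)) ∘ₗ
        (Matrix.toEuclideanLin C) ∘ₗ
        ((b.repr.symm.toLinearEquiv).symm : E (m + 1) →ₗ[ℝ] E (m + 1)) := by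
      rw [hT]; rfl
    rw [h2, h1]
    rw [Matrix.toEuclideanLin_eq_toLin_orthonormal, LinearMap.det_toLin]
  have hdetT0 : LinearMap.det T ≠ 0 := by
    rw [hdetT]
    intro h
    rw [hdetC, h] at hdet
    norm_num at hdet
  have hTn : ∀ ξ : E (m + 1), ‖T ξ‖ = √(∫ x, ⟪g x, ξ⟫_ℝ ^ 2) := by
    intro ξ
    have h1 : ‖T ξ‖ = ‖Matrix.toEuclideanLin C (b.repr ξ)‖ := by
      rw [hT]
      simp only [LinearMap.comp_apply]
      exact b.repr.symm.norm_map _
    rw [h1, EuclideanSpace.norm_eq, quad_eq b hg ξ]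
    congr 1
    have h2 : ∀ i, (Matrix.toEuclideanLin C (b.repr ξ)) i = ∑ j, C i j * ⟪b j, ξ⟫_ℝ := by
      intro i
      simp [Matrix.toEuclideanLin_apply, Matrix.mulVec, dotProduct, b.repr_apply_apply]
    simp only [h2, Real.norm_eq_abs, sq_abs]
    have h3 : ∀ i j, gram b g i j = ∑ k, C k i * C k j := by
      intro i j
      rw [← hMdef, hC']
      simp [Matrix.mul_apply]
    simp only [h3]
    simp only [sq, Finset.sum_mul_sum, Finset.mul_sum, Finset.sum_mul]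
    rw [Finset.sum_comm]
    refine Finset.sum_congr rfl fun i _ => ?_
    rw [Finset.sum_comm]
    refine Finset.sum_congr rfl fun j _ => Finset.sum_congr rfl fun k _ => ?_
    ring
  have hln : ∀ ξ : sphere (0 : E (m + 1)) 1,
      (lnorm 2 fun x => ⟪g x, (ξ : E (m + 1))⟫_ℝ) ^ (-((m + 1 : ℕ) : ℝ)) =
        (‖T (ξ : E (m + 1))‖⁻¹) ^ (m + 1) := by
    intro ξ
    rw [lnorm_two, hTn]
    simp only [Real.norm_eq_abs, sq_abs]
    rw [Real.rpow_neg (Real.sqrt_nonneg _), Real.rpow_natCast, inv_pow]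
  unfold energy
  simp only [hln]
  rw [sphere_int m T hdetT0, hdetT, vol_ball (by omega), cst_two (by omega)]
  have hCd : |C.det| = √M.det := by
    rw [hdetC, Real.sqrt_sq_eq_abs]
  rw [hCd]
  have ho := om_pos (k := ((m + 1 : ℕ) : ℝ)) (by positivity)
  have hm : (0 : ℝ) < ((m + 1 : ℕ) : ℝ) := by positivity
  set N : ℝ := ((m + 1 : ℕ) : ℝ) with hN
  have hcast : ((m : ℝ) + 1) = N := by rw [hN]; push_cast; ring
  rw [hcast]
  have hsd : 0 < √M.det := Real.sqrt_pos.2 hdet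
  have e1 : (N * (om N / √M.det)) ^ (-1 / N) = (N * om N) ^ (-1 / N) * (√M.det) ^ (1 / N) := by
    rw [← mul_div_assoc, Real.div_rpow (by positivity) hsd.le, div_eq_mul_inv]
    congr 1
    rw [← Real.rpow_neg hsd.le]
    congr 1
    ring
  rw [e1]
  have e2 : (N * om N) ^ (1 / N) * (N * om N) ^ (-1 / N) = 1 := by
    rw [← Real.rpow_add (by positivity)]
    have : 1 / N + -1 / N = 0 := by ring
    rw [this, Real.rpow_zero]
  have e3 : √N * (N * om N) ^ (1 / N) * ((N * om N) ^ (-1 / N) * √M.det ^ (1 / N)) =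
      √N * √M.det ^ (1 / N) * ((N * om N) ^ (1 / N) * (N * om N) ^ (-1 / N)) := by ring
  rw [e3, e2, mul_one, Real.mul_rpow (by positivity) hdet.le]
  congr 1
  · rw [← Real.rpow_natCast, ← hN, ← Real.rpow_mul hm.le, Real.sqrt_eq_rpow]
    congr 1
    field_simp
  · rw [Real.sqrt_eq_rpow, ← Real.rpow_mul hdet.le]
    congr 1
    field_simp

end Pool.Agent.N219.AZ
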