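import Pool.Agent.N219.AZ.Defs

open MeasureTheory Set Filter Topology Metric
open scoped Real InnerProductSpace

namespace Pool.Agent.N219.AZ

variable {n : ℕ}

theorem integral_lineDeriv_zero {h h' : E n → ℝ} {ξ : E n}
    (hd : ∀ x, HasLineDerivAt ℝ h (h' x) x ξ) (hi : Integrable h) (hi' : Integrable h') :
    ∫ x, h' x = 0 := by
  have key := integral_bilinear_hasLineDerivAt_right_eq_neg_left_of_integrable
    (μ := (volume : Measure (E n))) (f := fun _ => (1 : ℝ)) (f' := fun _ => (0 : ℝ)) (g := h)
    (g' := h') (v := ξ) (B := ContinuousLinearMap.mul ℝ ℝ) (by simp) (by simpa using hi')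
    (by simpa using hi) (fun x _ => by
      unfold HasLineDerivAt
      exact hasDerivAt_const _ _) (fun x _ => hd x)
  simpa using key

theorem continuous_mul_of_tsupport {W F : E n → ℝ} {U : Set (E n)} (hU : IsOpen U)
    (hW : ContinuousOn W U) (hF : Continuous F) (hFU : tsupport F ⊆ U) :
    Continuous (fun x => W x * F x) := by
  rw [continuous_iff_continuousAt]
  intro x
  by_cases hx : x ∈ U
  · exact (hW.continuousAt (hU.mem_nhds hx)).mul hF.continuousAt
  · have hx' : x ∉ tsupport F := fun h => hx (hFU h)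
    have h1 : F =ᶠ[𝓝 x] 0 := notMem_tsupport_iff_eventuallyEq.1 hx'
    have h2 : (fun x => W x * F x) =ᶠ[𝓝 x] fun _ => 0 := by
      filter_upwards [h1] with y hy
      rw [hy]; simp
    exact (continuousAt_const.congr h2.symm)

/-- Ground state inequality: if `∂_ξ W = - W² - V` near the support of `F`, then
`∫ V F² ≤ ∫ (∂_ξ F)²`. -/
theorem ground_state {F : E n → ℝ} {U : Set (E n)} (hU : IsOpen U) (hF : Adm U F) {ξ : E n}
    {W V : E n → ℝ} (hW : ContinuousOn W U) (hV : ContinuousOn V U)
    (hWd : ∀ x ∈ U, HasLineDerivAt ℝ W (-W x ^ 2 - V x) x ξ) :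
    ∫ x, V x * F x ^ 2 ≤ ∫ x, (fderiv ℝ F x ξ) ^ 2 := by
  obtain ⟨hC, hK, hsub⟩ := hF
  have hFc : Continuous F := hC.continuous
  have hFd : Differentiable ℝ F := hC.differentiable one_ne_zero
  have hDc : Continuous (fun x => fderiv ℝ F x ξ) :=
    (hC.continuous_fderiv one_ne_zero).clm_apply continuous_const
  have hDK : HasCompactSupport (fun x => fderiv ℝ F x ξ) := hK.fderiv_apply (𝕜 := ℝ) ξ
  set h : E n → ℝ := fun x => W x * F x * F x with hh
  set h' : E n → ℝ := fun x => (-W x ^ 2 - V x) * F x * F x + 2 * (W x * F x) * fderiv ℝ F x ξ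
    with hh'
  have hWF : Continuous (fun x => W x * F x) := continuous_mul_of_tsupport hU hW hFc hsub
  have hVF : Continuous (fun x => V x * F x) := continuous_mul_of_tsupport hU hV hFc hsub
  have hcont : Continuous h := hWF.mul hFc
  have hcomp : HasCompactSupport h := by
    have : h = fun x => (W x * F x) * F x := rfl
    rw [this]
    exact hK.mul_left
  have hh'eq : h' = fun x => (-(W x * F x) ^ 2 - (V x * F x) * F x) +
      2 * (W x * F x) * fderiv ℝ F x ξ := by
    funext x; simp only [hh']; ring
  have hcont' : Continuous h' := by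
    rw [hh'eq]
    fun_prop
  have hcomp' : HasCompactSupport h' := by
    have : h' = fun x => ((-W x ^ 2 - V x) * F x) * F x + (2 * (W x * F x)) * fderiv ℝ F x ξ := rfl
    rw [this]
    exact (hK.mul_left).add (hDK.mul_left)
  have hd : ∀ x, HasLineDerivAt ℝ h (h' x) x ξ := by
    intro x
    by_cases hx : x ∈ U
    · have h1 := hWd x hx
      have h2 : HasLineDerivAt ℝ F (fderiv ℝ F x ξ) x ξ := (hFd x).hasFDerivAt.hasLineDerivAt ξ
      unfold HasLineDerivAt at h1 h2 ⊢
      have h3 := (h1.fun_mul h2).fun_mul h2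
      have e0 : x + (0 : ℝ) • ξ = x := by rw [zero_smul, add_zero]
      rw [e0] at h3
      refine h3.congr_deriv ?_
      rw [hh']
      ring
    · have hx' : x ∉ tsupport F := fun h => hx (hsub h)
      have h1 : F =ᶠ[𝓝 x] 0 := notMem_tsupport_iff_eventuallyEq.1 hx'
      have h2 : h =ᶠ[𝓝 x] fun _ => 0 := by
        filter_upwards [h1] with y hy
        simp [hh, hy]
      have h3 : F x = 0 := h1.eq_of_nhds
      have h4 : h' x = 0 := by
        have h5 : fderiv ℝ F x = 0 := by
          rw [h1.fderiv_eq]
          simp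
        simp [hh', h3, h5]
      rw [h4]
      have h6 : HasFDerivAt h (0 : E n →L[ℝ] ℝ) x := (hasFDerivAt_const (0 : ℝ) x).congr_of_eventuallyEq h2
      have := h6.hasLineDerivAt ξ
      simpa using this
  have hint := hcont.integrable_of_hasCompactSupport hcomp (μ := (volume : Measure (E n)))
  have hint' := hcont'.integrable_of_hasCompactSupport hcomp' (μ := (volume : Measure (E n)))
  have hzero := integral_lineDeriv_zero hd hint hint'
  have hi1 : Integrable (fun x => V x * F x ^ 2) := by
    have : (fun x => V x * F x ^ 2) = fun x => (V x * F x) * F x := by funext x; ring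
    rw [this]
    exact (hVF.mul hFc).integrable_of_hasCompactSupport hK.mul_left
  have hi2 : Integrable (fun x => (fderiv ℝ F x ξ) ^ 2) := by
    have : (fun x => (fderiv ℝ F x ξ) ^ 2) = fun x => fderiv ℝ F x ξ * fderiv ℝ F x ξ := by
      funext x; ring
    rw [this]
    exact (hDc.mul hDc).integrable_of_hasCompactSupport hDK.mul_left
  calc ∫ x, V x * F x ^ 2 = ∫ x, (V x * F x ^ 2 + h' x) := by
        rw [integral_add hi1 hint', hzero, add_zero]
    _ ≤ ∫ x, (fderiv ℝ F x ξ) ^ 2 := by
        apply integral_mono (hi1.add hint') hi2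
        intro x
        simp only [hh', Pi.add_apply]
        nlinarith [sq_nonneg (fderiv ℝ F x ξ - W x * F x)]

end Pool.Agent.N219.AZ
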