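import Pool.Agent.N219.AZ.En
import Pool.Agent.N86.Had

open MeasureTheory Set Filter Topology Metric
open scoped Real InnerProductSpace Matrix MatrixOrder

namespace Pool.Agent.N219.AZ

variable {n : ℕ}

/-- If `xᵀ M x ≥ κ_j x_j²` for all `x` and `j` then `M_ii ≤ det M · ∏_{j≠i} κ_j⁻¹`. -/
theorem diag_le_det {M : Matrix (Fin n) (Fin n) ℝ} (hM : M.PosDef) {κ : Fin n → ℝ}
    (hκ : ∀ j, 0 < κ j)
    (h : ∀ (x : Fin n → ℝ) (j : Fin n), κ j * x j ^ 2 ≤ ∑ i, ∑ k, x i * M i k * x k) (i : Fin n) :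
    M i i ≤ M.det * ∏ j ∈ Finset.univ.erase i, (κ j)⁻¹ := by
  classical
  have hdet : 0 < M.det := hM.det_pos
  obtain ⟨P, hP⟩ := CStarAlgebra.nonneg_iff_eq_star_mul_self.mp hM.posSemidef.nonneg
  have hP' : M = Pᵀ * P := by rw [hP]; congr 1
  have hdetP : M.det = P.det ^ 2 := by
    rw [hP', Matrix.det_mul, Matrix.det_transpose, sq]
  have hP0 : P.det ≠ 0 := by
    intro h0
    rw [hdetP, h0] at hdet
    norm_num at hdet
  have hPu : IsUnit P.det := isUnit_iff_ne_zero.2 hP0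
  set Q := P⁻¹ with hQ
  have hPQ : P * Q = 1 := Matrix.mul_nonsing_inv _ hPu
  have hQP : Q * P = 1 := Matrix.nonsing_inv_mul _ hPu
  have hMii : ∀ a b, M a b = ∑ k, P k a * P k b := by
    intro a b; rw [hP']; simp [Matrix.mul_apply]
  -- the rows of `Q`
  have hq : ∀ j, ∑ k, Q j k ^ 2 ≤ (κ j)⁻¹ := by
    intro j
    set s := ∑ k, Q j k ^ 2 with hs
    have hs0 : 0 ≤ s := Finset.sum_nonneg fun k _ => sq_nonneg _
    set x : Fin n → ℝ := Q *ᵥ (Q j) with hx
    have hxj : x j = s := by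
      simp [hx, Matrix.mulVec, dotProduct, hs, sq]
    have hPx : P *ᵥ x = Q j := by
      rw [hx, Matrix.mulVec_mulVec, hPQ, Matrix.one_mulVec]
    have h1 := h x j
    have h2 : ∑ i, ∑ k, x i * M i k * x k = s := by
      have h3 : ∑ i, ∑ k, x i * M i k * x k = ∑ l, (P *ᵥ x) l ^ 2 := by
        simp only [hMii, Matrix.mulVec, dotProduct, sq, Finset.sum_mul_sum, Finset.mul_sum,
          Finset.sum_mul]
        rw [Finset.sum_comm]
        have e1 : ∀ k : Fin n, (∑ i, ∑ l, x i * (P l i * P l k) * x k) =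
            ∑ l, ∑ i, x i * (P l i * P l k) * x k := fun k => Finset.sum_comm
        simp only [e1]
        rw [Finset.sum_comm]
        refine Finset.sum_congr rfl fun l _ => ?_
        refine Finset.sum_congr rfl fun k _ => Finset.sum_congr rfl fun i _ => ?_
        ring
      rw [h3, hPx]
    rw [h2, hxj] at h1
    rcases hs0.eq_or_lt with h0 | h0
    · rw [← h0]; exact (inv_pos.2 (hκ j)).le
    · have h4 : κ j * s ≤ 1 := by
        have : (κ j * s) * s ≤ 1 * s := by nlinarith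
        exact le_of_mul_le_mul_right this h0
      rw [← one_div, le_div_iff₀ (hκ j)]
      linarith
  -- replace a row
  set R := Q.updateRow i (fun k => P k i) with hR
  have hRdet : R.det = Q.det * M i i := by
    have h1 : R.det = (Qᵀ.updateCol i (fun k => P k i)).det := by
      rw [hR, Matrix.updateCol_transpose, Matrix.det_transpose]
    rw [h1, ← Matrix.cramer_apply, Matrix.cramer_eq_adjugate_mulVec]
    have hQu : IsUnit Q.det := by
      rw [hQ, Matrix.det_nonsing_inv]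
      exact hPu.ringInverse
    have h2 : Qᵀ.adjugate = Q.det • Pᵀ := by
      have h3 : Qᵀ.adjugate * Qᵀ = Q.det • (1 : Matrix (Fin n) (Fin n) ℝ) := by
        rw [Matrix.adjugate_mul, Matrix.det_transpose]
      have h4 : Qᵀ * Pᵀ = 1 := by rw [← Matrix.transpose_mul, hPQ, Matrix.transpose_one]
      calc Qᵀ.adjugate = Qᵀ.adjugate * (Qᵀ * Pᵀ) := by rw [h4, Matrix.mul_one]
        _ = Q.det • Pᵀ := by rw [← Matrix.mul_assoc, h3, Matrix.smul_mul, Matrix.one_mul]
    rw [h2, Matrix.smul_mulVec]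
    simp only [Pi.smul_apply, smul_eq_mul]
    congr 1
    rw [hMii]
    simp [Matrix.mulVec, dotProduct]
  have hHad := Pool.Agent.N86.hadamard_sq R
  have hQdet : Q.det ^ 2 * M.det = 1 := by
    rw [hdetP, ← mul_pow, ← Matrix.det_mul, hQP, Matrix.det_one, one_pow]
  have hprod : ∏ a, ∑ b, R a b ^ 2 = M i i * ∏ j ∈ Finset.univ.erase i, ∑ k, Q j k ^ 2 := by
    rw [← Finset.mul_prod_erase Finset.univ _ (Finset.mem_univ i)]
    congr 1
    · rw [hMii]
      refine Finset.sum_congr rfl fun k _ => ?_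
      rw [hR, Matrix.updateRow_self, sq]
    · refine Finset.prod_congr rfl fun j hj => ?_
      have hne : j ≠ i := Finset.ne_of_mem_erase hj
      refine Finset.sum_congr rfl fun k _ => ?_
      rw [hR, Matrix.updateRow_ne hne]
  have hMpos : 0 < M i i := hM.diag_pos
  have hple : ∏ j ∈ Finset.univ.erase i, ∑ k, Q j k ^ 2 ≤ ∏ j ∈ Finset.univ.erase i, (κ j)⁻¹ :=
    Finset.prod_le_prod (fun j _ => Finset.sum_nonneg fun k _ => sq_nonneg _) fun j _ => hq j
  rw [hRdet, hprod] at hHad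
  have h5 : Q.det ^ 2 * M i i ≤ ∏ j ∈ Finset.univ.erase i, (κ j)⁻¹ := by
    have h6 : (Q.det ^ 2 * M i i) * M i i ≤
        (∏ j ∈ Finset.univ.erase i, ∑ k, Q j k ^ 2) * M i i := by nlinarith
    exact (le_of_mul_le_mul_right h6 hMpos).trans hple
  calc M i i = M.det * (Q.det ^ 2 * M i i) := by
        rw [← mul_assoc, mul_comm M.det, hQdet, one_mul]
    _ ≤ M.det * ∏ j ∈ Finset.univ.erase i, (κ j)⁻¹ := mul_le_mul_of_nonneg_left h5 hdet.le

end Pool.Agent.N219.AZ
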