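import Pool.Agent.N219.AZ.En
import Pool.Agent.N219.AZ.GS

open MeasureTheory Set Filter Topology Metric
open scoped Real InnerProductSpace

namespace Pool.Agent.N219.AZ

variable {n : ℕ}

theorem ofReal_two : ENNReal.ofReal 2 = 2 := by simp

theorem lnorm_nonneg {F : Type} [NormedAddCommGroup F] (p : ℝ) (f : E n → F) : 0 ≤ lnorm p f := by
  unfold lnorm
  positivity

/-- Cauchy–Schwarz -/
theorem cs {u v ω : E n → ℝ} {C : ℝ} (hb : ∀ x, |ω x| ≤ C)
    (hu : MemLp u 2) (hv : MemLp v 2) :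
    |∫ x, ω x * (u x * v x)| ≤ C * (lnorm 2 u * lnorm 2 v) := by
  have hC : 0 ≤ C := (abs_nonneg _).trans (hb 0)
  have h1 := integral_mul_norm_le_Lp_mul_Lq (μ := (volume : Measure (E n)))
    (Real.HolderConjugate.two_two) (f := u) (g := v) (by rwa [ofReal_two]) (by rwa [ofReal_two])
  calc |∫ x, ω x * (u x * v x)| = ‖∫ x, ω x * (u x * v x)‖ := (Real.norm_eq_abs _).symm
    _ ≤ ∫ x, ‖ω x * (u x * v x)‖ := norm_integral_le_integral_norm _
    _ ≤ ∫ x, C * (‖u x‖ * ‖v x‖) := by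
        apply integral_mono_of_nonneg (Eventually.of_forall fun x => norm_nonneg _)
        · have := (hu.integrable_mul hv).norm.const_mul C
          refine this.congr (Eventually.of_forall fun x => ?_)
          simp [norm_mul]
        · refine Eventually.of_forall fun x => ?_
          simp only [norm_mul]
          exact mul_le_mul_of_nonneg_right (hb x) (by positivity)
    _ = C * ∫ x, ‖u x‖ * ‖v x‖ := integral_const_mul _ _
    _ ≤ C * (lnorm 2 u * lnorm 2 v) := mul_le_mul_of_nonneg_left h1 hC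

theorem wint {u v ω : E n → ℝ} {C : ℝ} (hω : Measurable ω) (hb : ∀ x, |ω x| ≤ C)
    (hu : MemLp u 2) (hv : MemLp v 2) : Integrable (fun x => ω x * (u x * v x)) :=
  (hu.integrable_mul hv).bdd_mul hω.aestronglyMeasurable (Eventually.of_forall hb)

/-- convergence of weighted products -/
theorem tendsto_wprod {u v ω : E n → ℝ} {U V : ℕ → E n → ℝ} {C : ℝ} (hω : Measurable ω)
    (hb : ∀ x, |ω x| ≤ C) (hu : MemLp u 2) (hv : MemLp v 2) (hU : ∀ k, MemLp (U k) 2)
    (hV : ∀ k, MemLp (V k) 2) (h1 : Tendsto (fun k => lnorm 2 (fun x => U k x - u x)) atTop (𝓝 0))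
    (h2 : Tendsto (fun k => lnorm 2 (fun x => V k x - v x)) atTop (𝓝 0)) :
    Tendsto (fun k => ∫ x, ω x * (U k x * V k x)) atTop (𝓝 (∫ x, ω x * (u x * v x))) := by
  have hdU : ∀ k, MemLp (fun x => U k x - u x) 2 := fun k => (hU k).sub hu
  have hdV : ∀ k, MemLp (fun x => V k x - v x) 2 := fun k => (hV k).sub hv
  rw [← tendsto_sub_nhds_zero_iff]
  have hbd : ∀ k, |(∫ x, ω x * (U k x * V k x)) - ∫ x, ω x * (u x * v x)| ≤
      C * (lnorm 2 (fun x => U k x - u x) * lnorm 2 (fun x => V k x - v x)) +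
      C * (lnorm 2 (fun x => U k x - u x) * lnorm 2 v) +
      C * (lnorm 2 u * lnorm 2 (fun x => V k x - v x)) := by
    intro k
    have i1 := wint hω hb (hdU k) (hdV k)
    have i2 := wint hω hb (hdU k) hv
    have i3 := wint hω hb hu (hdV k)
    have i4 := wint hω hb hu hv
    have e : (∫ x, ω x * (U k x * V k x)) - ∫ x, ω x * (u x * v x) =
        (∫ x, ω x * ((U k x - u x) * (V k x - v x))) + (∫ x, ω x * ((U k x - u x) * v x)) +
        ∫ x, ω x * (u x * (V k x - v x)) := by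
      have i12 : Integrable (fun x => ω x * ((U k x - u x) * (V k x - v x)) +
          ω x * ((U k x - u x) * v x)) := i1.add i2
      rw [← integral_sub (wint hω hb (hU k) (hV k)) i4, ← integral_add i1 i2,
        ← integral_add i12 i3]
      congr 1
      funext x
      ring
    rw [e]
    refine (abs_add_three _ _ _).trans ?_
    exact add_le_add (add_le_add (cs hb (hdU k) (hdV k)) (cs hb (hdU k) hv)) (cs hb hu (hdV k))
  have hlim : Tendsto (fun k => C * (lnorm 2 (fun x => U k x - u x) *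
      lnorm 2 (fun x => V k x - v x)) +
      C * (lnorm 2 (fun x => U k x - u x) * lnorm 2 v) +
      C * (lnorm 2 u * lnorm 2 (fun x => V k x - v x))) atTop (𝓝 0) := by
    have := (((h1.mul h2).const_mul C).add ((h1.mul_const (lnorm 2 v)).const_mul C)).add
      ((h2.const_mul (lnorm 2 u)).const_mul C)
    simpa using this
  exact squeeze_zero_norm hbd hlim

theorem grad_inner (F : E n → ℝ) (x ξ : E n) : ⟪gradient F x, ξ⟫_ℝ = fderiv ℝ F x ξ := by
  simp [inner_gradient_left]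

theorem adm_memLp {Ω : Set (E n)} {F : E n → ℝ} (h : Adm Ω F) : MemLp F 2 :=
  h.1.continuous.memLp_of_hasCompactSupport h.2.1

theorem grad_cont {F : E n → ℝ} (h : ContDiff ℝ 1 F) : Continuous (gradient F) := by
  unfold gradient
  exact (InnerProductSpace.toDual ℝ (E n)).symm.continuous.comp (h.continuous_fderiv one_ne_zero)

theorem grad_supp {F : E n → ℝ} (h : HasCompactSupport F) : HasCompactSupport (gradient F) := by
  unfold gradient
  exact (h.fderiv (𝕜 := ℝ)).comp_left (g := (InnerProductSpace.toDual ℝ (E n)).symm) (map_zero _)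

theorem adm_grad_memLp {Ω : Set (E n)} {F : E n → ℝ} (h : Adm Ω F) : MemLp (gradient F) 2 :=
  (grad_cont h.1).memLp_of_hasCompactSupport (grad_supp h.2.1)

theorem lnorm_zero {F : Type} [NormedAddCommGroup F] : lnorm 2 (fun _ : E n => (0 : F)) = 0 := by
  rw [lnorm_two]; simp

theorem adm_isW0 {Ω : Set (E n)} {F : E n → ℝ} (h : Adm Ω F) : IsW0 2 Ω F (gradient F) := by
  refine ⟨by rw [ofReal_two]; exact adm_memLp h, by rw [ofReal_two]; exact adm_grad_memLp h,
    fun _ => F, fun _ => h, ?_, ?_⟩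
  · simp [lnorm_zero]
  · simp [lnorm_zero]

/-- monotonicity of the norm -/
theorem lnorm_inner_le {g : E n → E n} (hg : MemLp g 2) {e : E n} (he : ‖e‖ = 1) :
    lnorm 2 (fun x => ⟪e, g x⟫_ℝ) ≤ lnorm 2 g := by
  rw [lnorm_two, lnorm_two]
  apply Real.sqrt_le_sqrt
  have h1 : Integrable (fun x => ‖g x‖ ^ 2) := by
    have := hg.norm.integrable_sq
    exact this
  have h2 : Integrable (fun x => ‖⟪e, g x⟫_ℝ‖ ^ 2) := by
    have := (hg.const_inner e (𝕜 := ℝ)).norm.integrable_sq
    exact this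
  apply integral_mono h2 h1
  intro x
  have := norm_inner_le_norm (𝕜 := ℝ) e (g x)
  rw [he, one_mul] at this
  exact pow_le_pow_left₀ (norm_nonneg _) this 2

/-- the data of a `W_0` pair: convergence of all quadratic quantities -/
theorem w0_tendsto {Ω : Set (E n)} {f : E n → ℝ} {g : E n → E n} (h : IsW0 2 Ω f g) :
    MemLp f 2 ∧ MemLp g 2 ∧ ∃ F : ℕ → E n → ℝ, (∀ k, Adm Ω (F k)) ∧
      (∀ (ω : E n → ℝ) (C : ℝ), Measurable ω → (∀ x, |ω x| ≤ C) →
        Tendsto (fun k => ∫ x, ω x * F k x ^ 2) atTop (𝓝 (∫ x, ω x * f x ^ 2))) ∧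
      (∀ (b : OrthonormalBasis (Fin n) ℝ (E n)) (i j : Fin n),
        Tendsto (fun k => gram b (gradient (F k)) i j) atTop (𝓝 (gram b g i j))) := by
  obtain ⟨hf, hg, F, hF, h1, h2⟩ := h
  rw [ofReal_two] at hf hg
  refine ⟨hf, hg, F, hF, ?_, ?_⟩
  · intro ω C hω hb
    have := tendsto_wprod hω hb hf hf (fun k => adm_memLp (hF k)) (fun k => adm_memLp (hF k)) h1 h1
    simpa only [sq] using this
  · intro b i j
    have hbi : ∀ i, ‖b i‖ = 1 := fun i => b.orthonormal.1 i
    have hc : ∀ i, Tendsto (fun k => lnorm 2 (fun x => ⟪b i, gradient (F k) x⟫_ℝ - ⟪b i, g x⟫_ℝ))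
        atTop (𝓝 0) := by
      intro i
      refine squeeze_zero (fun k => lnorm_nonneg _ _) (fun k => ?_) h2
      have := lnorm_inner_le (g := fun x => gradient (F k) x - g x)
        ((adm_grad_memLp (hF k)).sub hg) (hbi i)
      simpa only [inner_sub_right] using this
    have := tendsto_wprod (ω := fun _ => (1 : ℝ)) (C := 1) measurable_const (by simp)
      (memLp_comp b hg i) (memLp_comp b hg j) (fun k => memLp_comp b (adm_grad_memLp (hF k)) i)
      (fun k => memLp_comp b (adm_grad_memLp (hF k)) j) (hc i) (hc j)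
    simp only [one_mul] at this
    exact this

/-- an inequality for admissible functions passes to the limit -/
theorem w0_ineq {Ω : Set (E n)} {f : E n → ℝ} {g : E n → E n} (h : IsW0 2 Ω f g) {ω : E n → ℝ}
    {C : ℝ} (hω : Measurable ω) (hb : ∀ x, |ω x| ≤ C) (ξ : E n)
    (hF : ∀ F, Adm Ω F → ∫ x, ω x * F x ^ 2 ≤ ∫ x, (fderiv ℝ F x ξ) ^ 2) :
    ∫ x, ω x * f x ^ 2 ≤ ∫ x, ⟪g x, ξ⟫_ℝ ^ 2 := by
  obtain ⟨hf, hg, F, hA, h1, h2⟩ := w0_tendsto h
  set b : OrthonormalBasis (Fin n) ℝ (E n) := EuclideanSpace.basisFun (Fin n) ℝ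
  rw [quad_eq b hg ξ]
  refine le_of_tendsto_of_tendsto' (h1 ω C hω hb) (b := atTop)
    (g := fun k => ∑ i, ∑ j, ⟪b i, ξ⟫_ℝ * gram b (gradient (F k)) i j * ⟪b j, ξ⟫_ℝ) ?_ ?_
  · exact tendsto_finsetSum _ fun i _ => tendsto_finsetSum _ fun j _ =>
      ((h2 b i j).const_mul _).mul_const _
  · intro k
    rw [← quad_eq b (adm_grad_memLp (hA k)) ξ]
    simpa only [grad_inner] using hF (F k) (hA k)

end Pool.Agent.N219.AZ
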