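import Pool.Agent.N219.AZ.Lim
import Pool.Agent.N219.AZ.Had

open MeasureTheory Set Filter Topology Metric
open scoped Real InnerProductSpace Matrix

namespace Pool.Agent.N219.AZ

variable {n : ℕ}

theorem cot_deriv (k : ℝ) {t : ℝ} (h : Real.sin (k * t) ≠ 0) :
    HasDerivAt (fun t => k * Real.cos (k * t) / Real.sin (k * t))
      (-(k * Real.cos (k * t) / Real.sin (k * t)) ^ 2 - k ^ 2) t := by
  have h1 : HasDerivAt (fun t => k * t) k t := by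
    simpa using (hasDerivAt_id t).const_mul k
  have h2 := (h1.cos.const_mul k).div h1.sin h
  refine h2.congr_deriv ?_
  field_simp
  ring

theorem sin_pos_of {L t : ℝ} (hL : 0 < L) (h0 : 0 < t) (h1 : t < L) : 0 < Real.sin (π / L * t) := by
  have hpi := Real.pi_pos
  apply Real.sin_pos_of_pos_of_lt_pi
  · positivity
  · calc π / L * t < π / L * L := by
          apply mul_lt_mul_of_pos_left h1 (by positivity)
      _ = π := by field_simp

/-- Poincaré inequality in a strip, in an arbitrary direction -/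
theorem strip_ineq {e : E n} {a L : ℝ} (hL : 0 < L) {F : E n → ℝ}
    (hF : Adm {x | a < ⟪e, x⟫_ℝ ∧ ⟪e, x⟫_ℝ < a + L} F) (ξ : E n) :
    ∫ x, (π / L * ⟪e, ξ⟫_ℝ) ^ 2 * F x ^ 2 ≤ ∫ x, (fderiv ℝ F x ξ) ^ 2 := by
  set U : Set (E n) := {x | a < ⟪e, x⟫_ℝ ∧ ⟪e, x⟫_ℝ < a + L} with hU
  set k := π / L with hk
  have hUo : IsOpen U := by
    have hc : Continuous (fun x : E n => ⟪e, x⟫_ℝ) := by fun_prop
    rw [hU]
    exact (isOpen_lt continuous_const hc).inter (isOpen_lt hc continuous_const)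
  have hsin : ∀ x ∈ U, Real.sin (k * (⟪e, x⟫_ℝ - a)) ≠ 0 := by
    intro x hx
    exact (sin_pos_of hL (by linarith [hx.1]) (by linarith [hx.2])).ne'
  refine ground_state hUo hF (ξ := ξ)
    (W := fun x => ⟪e, ξ⟫_ℝ * (k * Real.cos (k * (⟪e, x⟫_ℝ - a)) / Real.sin (k * (⟪e, x⟫_ℝ - a))))
    (V := fun _ => (k * ⟪e, ξ⟫_ℝ) ^ 2) ?_ continuousOn_const ?_
  · apply ContinuousOn.mul continuousOn_const
    apply ContinuousOn.div
    · fun_prop
    · fun_prop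
    · exact hsin
  · intro x hx
    unfold HasLineDerivAt
    have h1 : HasDerivAt (fun t : ℝ => ⟪e, x + t • ξ⟫_ℝ - a) ⟪e, ξ⟫_ℝ 0 := by
      have h2 : (fun t : ℝ => ⟪e, x + t • ξ⟫_ℝ - a) = fun t => t * ⟪e, ξ⟫_ℝ + (⟪e, x⟫_ℝ - a) := by
        funext t
        rw [inner_add_right, inner_smul_right]
        ring
      rw [h2]
      simpa using ((hasDerivAt_id (0 : ℝ)).mul_const ⟪e, ξ⟫_ℝ).add_const (⟪e, x⟫_ℝ - a)
    have h0 : x + (0 : ℝ) • ξ = x := by rw [zero_smul, add_zero]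
    have h3 : HasDerivAt (fun t => k * Real.cos (k * t) / Real.sin (k * t))
      (-(k * Real.cos (k * (⟪e, x⟫_ℝ - a)) / Real.sin (k * (⟪e, x⟫_ℝ - a))) ^ 2 - k ^ 2)
      (⟪e, x + (0 : ℝ) • ξ⟫_ℝ - a) := by
      rw [h0]
      exact cot_deriv k (hsin x hx)
    have h4 := (h3.comp (0 : ℝ) h1).const_mul ⟪e, ξ⟫_ℝ
    refine h4.congr_deriv ?_
    ring

theorem adm_mono {Ω Ω' : Set (E n)} (h : Ω ⊆ Ω') {F : E n → ℝ} (hF : Adm Ω F) : Adm Ω' F :=
  ⟨hF.1, hF.2.1, hF.2.2.trans h⟩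

/-- the directional Poincaré inequality in a box -/
theorem box_ineq {Ω : Set (E n)} {b : OrthonormalBasis (Fin n) ℝ (E n)} {a L : Fin n → ℝ}
    (hL : ∀ i, 0 < L i) (hΩ : Ω ⊆ Box b a L) {f : E n → ℝ} {g : E n → E n} (h : IsW0 2 Ω f g)
    (ξ : E n) (j : Fin n) :
    ((π / L j) ^ 2 * ∫ x, f x ^ 2) * ⟪b j, ξ⟫_ℝ ^ 2 ≤ ∫ x, ⟪g x, ξ⟫_ℝ ^ 2 := by
  have h1 := w0_ineq h (ω := fun _ => (π / L j * ⟪b j, ξ⟫_ℝ) ^ 2)
    (C := (π / L j * ⟪b j, ξ⟫_ℝ) ^ 2) measurable_const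
    (fun x => by rw [abs_of_nonneg (sq_nonneg _)]) ξ (fun F hF => by
      exact strip_ineq (a := a j) (hL j) (adm_mono (fun x hx => hΩ hx j) hF) ξ)
  rw [integral_const_mul] at h1
  calc ((π / L j) ^ 2 * ∫ x, f x ^ 2) * ⟪b j, ξ⟫_ℝ ^ 2
      = (π / L j * ⟪b j, ξ⟫_ℝ) ^ 2 * ∫ x, f x ^ 2 := by ring
    _ ≤ _ := h1

/-- the vector with given coordinates -/
theorem exists_vec (b : OrthonormalBasis (Fin n) ℝ (E n)) (x : Fin n → ℝ) :
    ∃ ξ : E n, ∀ i, ⟪b i, ξ⟫_ℝ = x i := by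
  refine ⟨b.repr.symm (WithLp.toLp 2 x), fun i => ?_⟩
  rw [← b.repr_apply_apply]
  simp

theorem gram_isHermitian (b : OrthonormalBasis (Fin n) ℝ (E n)) (g : E n → E n) :
    (gram b g).IsHermitian := by
  ext i j
  simp [Matrix.conjTranspose_apply, gram_symm b g j i]

theorem quad_form (b : OrthonormalBasis (Fin n) ℝ (E n)) {g : E n → E n} (hg : MemLp g 2)
    {x : Fin n → ℝ} {ξ : E n} (hξ : ∀ i, ⟪b i, ξ⟫_ℝ = x i) :
    ∑ i, ∑ k, x i * gram b g i k * x k = ∫ y, ⟪g y, ξ⟫_ℝ ^ 2 := by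
  rw [quad_eq b hg ξ]
  simp only [hξ]

theorem w0_memLp {Ω : Set (E n)} {f : E n → ℝ} {g : E n → E n} (h : IsW0 2 Ω f g) :
    MemLp f 2 ∧ MemLp g 2 := by
  obtain ⟨hf, hg, -⟩ := h
  rw [ofReal_two] at hf hg
  exact ⟨hf, hg⟩

theorem posDef_of_ineq (b : OrthonormalBasis (Fin n) ℝ (E n)) {g : E n → E n} (hg : MemLp g 2)
    {κ : Fin n → ℝ} (hκ : ∀ j, 0 < κ j)
    (h : ∀ ξ j, κ j * ⟪b j, ξ⟫_ℝ ^ 2 ≤ ∫ x, ⟪g x, ξ⟫_ℝ ^ 2) : (gram b g).PosDef := by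
  apply Matrix.PosDef.of_dotProduct_mulVec_pos (gram_isHermitian b g)
  intro x hx
  obtain ⟨ξ, hξ⟩ := exists_vec b x
  obtain ⟨j, hj⟩ := Function.ne_iff.1 hx
  have h1 : star x ⬝ᵥ (gram b g) *ᵥ x = ∫ y, ⟪g y, ξ⟫_ℝ ^ 2 := by
    rw [← quad_form b hg hξ]
    simp only [dotProduct, Matrix.mulVec, Finset.mul_sum, Pi.star_apply, star_trivial]
    refine Finset.sum_congr rfl fun i _ => Finset.sum_congr rfl fun k _ => ?_
    ring
  rw [h1]
  refine lt_of_lt_of_le ?_ (h ξ j)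
  rw [hξ j]
  have : x j ≠ 0 := hj
  have := hκ j
  positivity

/-- the lower bound for a general family of directional inequalities -/
theorem trace_le (b : OrthonormalBasis (Fin n) ℝ (E n)) {g : E n → E n} (hg : MemLp g 2)
    {κ : Fin n → ℝ} (hκ : ∀ j, 0 < κ j)
    (h : ∀ ξ j, κ j * ⟪b j, ξ⟫_ℝ ^ 2 ≤ ∫ x, ⟪g x, ξ⟫_ℝ ^ 2) (i : Fin n) :
    gram b g i i ≤ (gram b g).det * ∏ j ∈ Finset.univ.erase i, (κ j)⁻¹ := by
  refine diag_le_det (posDef_of_ineq b hg hκ h) hκ ?_ i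
  intro x j
  obtain ⟨ξ, hξ⟩ := exists_vec b x
  rw [quad_form b hg hξ, ← hξ j]
  exact h ξ j

/-- the content of `boxValue` -/
noncomputable def bv (L : Fin n → ℝ) : ℝ :=
  (n : ℝ) ^ n * π ^ (2 * (n - 1)) / ((∏ i, L i) ^ 2 * ∑ i, 1 / L i ^ 2)

theorem boxValue_eq (L : Fin n → ℝ) : boxValue L = bv L ^ (1 / (2 * (n : ℝ))) := rfl

theorem sum_pos (hn : 1 ≤ n) {L : Fin n → ℝ} (hL : ∀ i, 0 < L i) : 0 < ∑ i, 1 / L i ^ 2 := by
  have : Nonempty (Fin n) := ⟨⟨0, hn⟩⟩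
  apply Finset.sum_pos
  · intro i _; have := hL i; positivity
  · exact Finset.univ_nonempty

theorem bv_pos (hn : 1 ≤ n) {L : Fin n → ℝ} (hL : ∀ i, 0 < L i) : 0 < bv L := by
  unfold bv
  have h1 := sum_pos hn hL
  have h2 : 0 < ∏ i, L i := Finset.prod_pos fun i _ => hL i
  have h3 : (0 : ℝ) < n := by exact_mod_cast hn
  have := Real.pi_pos
  positivity

theorem prod_kappa {L : Fin n → ℝ} (hL : ∀ i, 0 < L i) {N : ℝ} (hN : 0 < N) (i : Fin n) :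
    ∏ j ∈ Finset.univ.erase i, ((π / L j) ^ 2 * N)⁻¹ =
      (∏ i, L i) ^ 2 * (1 / L i ^ 2) / (π ^ (2 * (n - 1)) * N ^ (n - 1)) := by
  have hpi := Real.pi_pos
  have h1 : ∀ j ∈ Finset.univ.erase i, ((π / L j) ^ 2 * N)⁻¹ = L j ^ 2 * (π ^ 2 * N)⁻¹ := by
    intro j _
    have := hL j
    field_simp
  rw [Finset.prod_congr rfl h1, Finset.prod_mul_distrib, Finset.prod_const]
  have h2 : (Finset.univ.erase i : Finset (Fin n)).card = n - 1 := by
    rw [Finset.card_erase_of_mem (Finset.mem_univ i), Finset.card_univ, Fintype.card_fin]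
  have h3 : ∏ j ∈ Finset.univ.erase i, L j ^ 2 = (∏ i, L i) ^ 2 * (1 / L i ^ 2) := by
    have h4 := Finset.mul_prod_erase Finset.univ (fun j => L j ^ 2) (Finset.mem_univ i)
    rw [← Finset.prod_pow, ← h4]
    have := hL i
    field_simp
  rw [h2, h3, inv_pow, mul_pow, ← pow_mul]
  rfl

/-- the main inequality for an element of `W_0^{1,2}` of a subset of a box -/
theorem box_main {Ω : Set (E n)} {b : OrthonormalBasis (Fin n) ℝ (E n)} {a L : Fin n → ℝ}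
    (hn : 1 ≤ n)
    (hL : ∀ i, 0 < L i) (hΩ : Ω ⊆ Box b a L) {f : E n → ℝ} {g : E n → E n} (h : IsW0 2 Ω f g)
    (hN : 0 < ∫ x, f x ^ 2) :
    (gram b g).PosDef ∧ bv L * (∫ x, f x ^ 2) ^ (n - 1) * (∫ x, ‖g x‖ ^ 2) ≤
      (n : ℝ) ^ n * (gram b g).det := by
  obtain ⟨hf, hg⟩ := w0_memLp h
  set N := ∫ x, f x ^ 2 with hNdef
  have hpi := Real.pi_pos
  have hκ : ∀ j, 0 < (π / L j) ^ 2 * N := fun j => by have := hL j; positivity
  have hin : ∀ ξ j, ((π / L j) ^ 2 * N) * ⟪b j, ξ⟫_ℝ ^ 2 ≤ ∫ x, ⟪g x, ξ⟫_ℝ ^ 2 :=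
    fun ξ j => box_ineq hL hΩ h ξ j
  refine ⟨posDef_of_ineq b hg hκ hin, ?_⟩
  have h1 := trace_le b hg hκ hin
  simp only [prod_kappa hL hN] at h1
  rw [gram_trace b hg]
  set V := (∏ i, L i) ^ 2 with hV
  set S := ∑ i, 1 / L i ^ 2 with hS
  have hVp : 0 < V := by
    have : 0 < ∏ i, L i := Finset.prod_pos fun i _ => hL i
    positivity
  have hSp : 0 < S := sum_pos hn hL
  set D := (gram b g).det with hD
  have h2 : ∑ i, gram b g i i ≤ D * (V * S / (π ^ (2 * (n - 1)) * N ^ (n - 1))) := by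
    calc ∑ i, gram b g i i ≤ ∑ i, D * (V * (1 / L i ^ 2) / (π ^ (2 * (n - 1)) * N ^ (n - 1))) :=
          Finset.sum_le_sum fun i _ => h1 i
      _ = D * (V * S / (π ^ (2 * (n - 1)) * N ^ (n - 1))) := by
          rw [← Finset.mul_sum, ← Finset.sum_div, ← Finset.mul_sum]
  have h3 : (0 : ℝ) < n := by exact_mod_cast hn
  calc bv L * N ^ (n - 1) * ∑ i, gram b g i i
      ≤ bv L * N ^ (n - 1) * (D * (V * S / (π ^ (2 * (n - 1)) * N ^ (n - 1)))) := by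
        apply mul_le_mul_of_nonneg_left h2
        have := bv_pos hn hL
        positivity
    _ = (n : ℝ) ^ n * D := by
        unfold bv
        rw [← hV, ← hS]
        field_simp

/-- rewriting the right hand side of the inequality -/
theorem rhs_eq (hn : 1 ≤ n) {c : ℝ} (hc : 0 ≤ c) (f : E n → ℝ) (g : E n → E n) :
    c ^ (1 / (2 * (n : ℝ))) * lnorm 2 f ^ (((n : ℝ) - 1) / n) * lnorm 2 g ^ (1 / (n : ℝ)) =
      (c * (∫ x, f x ^ 2) ^ (n - 1) * (∫ x, ‖g x‖ ^ 2)) ^ (1 / (2 * (n : ℝ))) := by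
  have h3 : (0 : ℝ) < n := by exact_mod_cast hn
  have hN : 0 ≤ ∫ x, f x ^ 2 := integral_nonneg fun x => sq_nonneg _
  have hT : 0 ≤ ∫ x, ‖g x‖ ^ 2 := integral_nonneg fun x => sq_nonneg _
  rw [Real.mul_rpow (by positivity) hT, Real.mul_rpow hc (by positivity), lnorm_two, lnorm_two]
  simp only [Real.norm_eq_abs, sq_abs]
  congr 1
  · congr 1
    rw [Real.sqrt_eq_rpow, ← Real.rpow_mul hN, ← Real.rpow_natCast, ← Real.rpow_mul hN]
    congr 1
    rw [Nat.cast_sub hn]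
    field_simp
    simp
  · rw [Real.sqrt_eq_rpow, ← Real.rpow_mul hT]
    congr 1
    field_simp

theorem energy_nonneg (p : ℝ) (hp : 1 ≤ p) (hn : 1 ≤ n) (g : E n → E n) : 0 ≤ energy p g := by
  unfold energy
  have h3 : (1 : ℝ) ≤ n := by exact_mod_cast hn
  have h1 := om_pos (k := p - 1) (by linarith)
  have h2 := om_pos (k := (n : ℝ) + p - 2) (by linarith)
  have h4 := om_pos (k := (n : ℝ)) (by linarith)
  apply mul_nonneg
  · unfold cst; positivity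
  · apply Real.rpow_nonneg
    apply integral_nonneg
    intro ξ
    exact Real.rpow_nonneg (lnorm_nonneg _ _) _

/-- the inequality for `W_0^{1,2}` of a subset of a box -/
theorem box_lower {Ω : Set (E n)} {b : OrthonormalBasis (Fin n) ℝ (E n)} {a L : Fin n → ℝ}
    (hn : 2 ≤ n)
    (hL : ∀ i, 0 < L i) (hΩ : Ω ⊆ Box b a L) {f : E n → ℝ} {g : E n → E n} (h : IsW0 2 Ω f g) :
    boxValue L * lnorm 2 f ^ (((n : ℝ) - 1) / n) * lnorm 2 g ^ (1 / (n : ℝ)) ≤ energy 2 g := by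
  have hN0 : 0 ≤ ∫ x, f x ^ 2 := integral_nonneg fun x => sq_nonneg _
  have h3 : (0 : ℝ) < n := by exact_mod_cast (by omega : 0 < n)
  rw [boxValue_eq, rhs_eq (by omega) (bv_pos (by omega) hL).le]
  rcases hN0.eq_or_lt with h0 | hN
  · rw [← h0, zero_pow (by omega), mul_zero, zero_mul, Real.zero_rpow (by positivity)]
    exact energy_nonneg 2 (by norm_num) (by omega) g
  · obtain ⟨hP, hI⟩ := box_main (by omega) hL hΩ h hN
    rw [energy_eq (by omega) b (w0_memLp h).2 hP]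
    apply Real.rpow_le_rpow _ hI (by positivity)
    have := (bv_pos (by omega) hL).le
    have hT : 0 ≤ ∫ x, ‖g x‖ ^ 2 := integral_nonneg fun x => sq_nonneg _
    positivity

end Pool.Agent.N219.AZ
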