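import Pool.Agent.N219.AZ.SInt

open MeasureTheory Set Filter Topology Metric
open scoped Real InnerProductSpace Matrix

namespace Pool.Agent.N219.AZ

variable {n : ℕ}

theorem sine_sq_pos {b : OrthonormalBasis (Fin n) ℝ (E n)} {a L : Fin n → ℝ}
    (hL : ∀ i, 0 < L i) : 0 < ∫ x, sineF b a L x ^ 2 := by
  rw [int_sineF_sq hL]
  exact Finset.prod_pos fun l _ => by have := hL l; positivity

theorem sine_posDef {b : OrthonormalBasis (Fin n) ℝ (E n)} {a L : Fin n → ℝ} (hn : 1 ≤ n)
    (hL : ∀ i, 0 < L i) : (gram b (sineG b a L)).PosDef :=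
  (box_main hn hL (subset_refl (Box b a L)) (sine_isW0 hL) (sine_sq_pos hL)).1

/-- the determinant identity for the product of sines -/
theorem sine_det {b : OrthonormalBasis (Fin n) ℝ (E n)} {a L : Fin n → ℝ} (hn : 1 ≤ n)
    (hL : ∀ i, 0 < L i) :
    (n : ℝ) ^ n * (gram b (sineG b a L)).det =
      bv L * (∫ x, sineF b a L x ^ 2) ^ (n - 1) * ∫ x, ‖sineG b a L x‖ ^ 2 := by
  have h1 := sine_energy (b := b) (a := a) hn hL
  have hP := sine_posDef (b := b) (a := a) hn hL
  have hdet : 0 < (gram b (sineG b a L)).det := hP.det_pos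
  rw [energy_eq hn b (sineG_memLp b a L) hP, boxValue_eq,
    rhs_eq hn (bv_pos hn hL).le] at h1
  have h3 : (0 : ℝ) < n := by exact_mod_cast hn
  have hT : 0 ≤ ∫ x, ‖sineG b a L x‖ ^ 2 := integral_nonneg fun x => sq_nonneg _
  have hN := (sine_sq_pos (b := b) (a := a) hL).le
  have hb := (bv_pos hn hL).le
  exact (Real.rpow_left_injOn (x := 1 / (2 * (n : ℝ))) (by positivity)).eq_iff
    (by simp only [mem_setOf_eq]; positivity) (by simp only [mem_setOf_eq]; positivity) |>.1 h1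

theorem boxValue_pos (hn : 1 ≤ n) {L : Fin n → ℝ} (hL : ∀ i, 0 < L i) : 0 < boxValue L := by
  rw [boxValue_eq]
  exact Real.rpow_pos_of_pos (bv_pos hn hL) _

/-- upper bound for valid constants of domains which contain a box -/
theorem upper {Ω : Set (E n)} {b : OrthonormalBasis (Fin n) ℝ (E n)} {a L : Fin n → ℝ}
    (hn : 2 ≤ n) (hL : ∀ i, 0 < L i) (hΩ : Box b a L ⊆ Ω) {A : ℝ} (hA : Valid 2 Ω A) :
    A ≤ boxValue L := by
  have hn1 : 1 ≤ n := by omega
  have h3 : (0 : ℝ) < n := by exact_mod_cast hn1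
  rcases le_or_gt A 0 with hA0 | hA0
  · exact hA0.trans (boxValue_pos hn1 hL).le
  set c := A ^ (2 * n) with hc
  have hc0 : 0 < c := by positivity
  have hAc : A = c ^ (1 / (2 * (n : ℝ))) := by
    rw [hc, ← Real.rpow_natCast, ← Real.rpow_mul hA0.le]
    push_cast
    rw [mul_one_div_cancel (by positivity), Real.rpow_one]
  obtain ⟨hf, hg, F, hF, h1, h2⟩ := w0_tendsto (sine_isW0 (b := b) (a := a) hL)
  have hN := h1 (fun _ => (1 : ℝ)) 1 measurable_const (by simp)
  simp only [one_mul] at hN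
  set N0 := ∫ x, sineF b a L x ^ 2 with hN0
  have hN0pos : 0 < N0 := sine_sq_pos hL
  have hTr : Tendsto (fun k => ∫ x, ‖gradient (F k) x‖ ^ 2) atTop
      (𝓝 (∫ x, ‖sineG b a L x‖ ^ 2)) := by
    rw [gram_trace b hg]
    have : (fun k => ∫ x, ‖gradient (F k) x‖ ^ 2) = fun k => ∑ i, gram b (gradient (F k)) i i :=
      funext fun k => gram_trace b (adm_grad_memLp (hF k))
    rw [this]
    exact tendsto_finsetSum _ fun i _ => h2 b i i
  have hDet : Tendsto (fun k => (gram b (gradient (F k))).det) atTop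
      (𝓝 (gram b (sineG b a L)).det) := by
    have hM : Tendsto (fun k => gram b (gradient (F k))) atTop (𝓝 (gram b (sineG b a L))) :=
      tendsto_pi_nhds.2 fun i => tendsto_pi_nhds.2 fun j => h2 b i j
    exact ((Continuous.matrix_det continuous_id).tendsto _).comp hM
  have hineq : ∀ᶠ k in atTop, c * (∫ x, F k x ^ 2) ^ (n - 1) * (∫ x, ‖gradient (F k) x‖ ^ 2) ≤
      (n : ℝ) ^ n * (gram b (gradient (F k))).det := by
    filter_upwards [hN.eventually (lt_mem_nhds hN0pos)] with k hk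
    have hP := (box_main hn1 hL (subset_refl (Box b a L)) (adm_isW0 (hF k)) hk).1
    have h4 := hA (F k) (adm_mono hΩ (hF k))
    rw [hAc, rhs_eq hn1 hc0.le, energy_eq hn1 b (adm_grad_memLp (hF k)) hP] at h4
    have hT : 0 ≤ ∫ x, ‖gradient (F k) x‖ ^ 2 := integral_nonneg fun x => sq_nonneg _
    have hdet := hP.det_pos
    exact (Real.rpow_le_rpow_iff (by positivity) (by positivity) (by positivity)).1 h4
  have hlim := le_of_tendsto_of_tendsto (((hN.pow (n - 1)).const_mul c).mul hTr)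
    (hDet.const_mul ((n : ℝ) ^ n)) hineq
  rw [sine_det hn1 hL, ← hN0] at hlim
  have hTpos : 0 < ∫ x, ‖sineG b a L x‖ ^ 2 := by
    have hT : 0 ≤ ∫ x, ‖sineG b a L x‖ ^ 2 := integral_nonneg fun x => sq_nonneg _
    rcases hT.eq_or_lt with h0 | h0
    · exfalso
      have h5 := sine_det (b := b) (a := a) hn1 hL
      rw [← h0, mul_zero] at h5
      have h6 := (sine_posDef (b := b) (a := a) hn1 hL).det_pos
      have : 0 < (n : ℝ) ^ n * (gram b (sineG b a L)).det := by positivity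
      linarith
    · exact h0
  have hcb : c ≤ bv L := by
    have h7 : 0 < N0 ^ (n - 1) * ∫ x, ‖sineG b a L x‖ ^ 2 := by positivity
    have h8 : c * (N0 ^ (n - 1) * ∫ x, ‖sineG b a L x‖ ^ 2) ≤
        bv L * (N0 ^ (n - 1) * ∫ x, ‖sineG b a L x‖ ^ 2) := by
      rw [← mul_assoc, ← mul_assoc]; exact hlim
    exact le_of_mul_le_mul_right h8 h7
  rw [hAc, boxValue_eq]
  exact Real.rpow_le_rpow hc0.le hcb (by positivity)

/-- validity for subsets of a box -/
theorem valid_of_subset {Ω : Set (E n)} {b : OrthonormalBasis (Fin n) ℝ (E n)} {a L : Fin n → ℝ}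
    (hn : 2 ≤ n) (hL : ∀ i, 0 < L i) (hΩ : Ω ⊆ Box b a L) : Valid 2 Ω (boxValue L) :=
  fun _ hF => box_lower hn hL hΩ (adm_isW0 hF)

/-- the best constant of a box -/
theorem best_box (b : OrthonormalBasis (Fin n) ℝ (E n)) (a : Fin n → ℝ) {L : Fin n → ℝ}
    (hn : 2 ≤ n) (hL : ∀ i, 0 < L i) : BestConstant 2 (Box b a L) (boxValue L) :=
  ⟨valid_of_subset hn hL subset_rfl, fun _ hA => upper hn hL subset_rfl hA⟩

/-- the product of sines is extremal -/
theorem extremal_box (b : OrthonormalBasis (Fin n) ℝ (E n)) (a : Fin n → ℝ) {L : Fin n → ℝ}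
    (hn : 2 ≤ n) (hL : ∀ i, 0 < L i) :
    IsExtremal 2 (Box b a L) (boxValue L) (sineF b a L) (sineG b a L) := by
  refine ⟨sine_isW0 hL, ?_, sine_energy (by omega) hL⟩
  intro h
  have h1 := sine_sq_pos (b := b) (a := a) hL
  have h2 : ∫ x, sineF b a L x ^ 2 = 0 := by
    rw [integral_eq_zero_of_ae]
    filter_upwards [h] with x hx
    simp [hx]
  linarith

end Pool.Agent.N219.AZ
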