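import Pool.Agent.N219.AZ.Sine

open MeasureTheory Set Filter Topology Metric
open scoped Real InnerProductSpace Matrix

namespace Pool.Agent.N219.AZ

variable {n : ℕ}

/-- integrals of products in orthonormal coordinates -/
theorem int_prod (b : OrthonormalBasis (Fin n) ℝ (E n)) (w : Fin n → ℝ → ℝ) :
    ∫ x : E n, ∏ i, w i ⟪b i, x⟫_ℝ = ∏ i, ∫ t, w i t := by
  have h1 := (b.measurePreserving_repr).integral_comp b.repr.toHomeomorph.measurableEmbedding
    (fun y : E n => ∏ i, w i (y i))
  have h2 := (PiLp.volume_preserving_ofLp (Fin n)).integral_comp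
    (MeasurableEquiv.toLp 2 (Fin n → ℝ)).symm.measurableEmbedding
    (fun y : Fin n → ℝ => ∏ i, w i (y i))
  have h3 := integral_fintype_prod_volume_eq_prod (𝕜 := ℝ) (E := fun _ : Fin n => ℝ) w
  rw [← h3, ← h2, ← h1]
  simp only [b.repr_apply_apply]

theorem int_shift {L : ℝ} (hL : 0 < L) (a : ℝ) (f : ℝ → ℝ) :
    ∫ t, (Ioo a (a + L)).indicator (fun t => f (π / L * (t - a))) t = L / π * ∫ x in 0..π, f x := by
  have hpi := Real.pi_pos
  rw [integral_indicator measurableSet_Ioo, ← integral_Ioc_eq_integral_Ioo,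
    ← intervalIntegral.integral_of_le (by linarith)]
  have h1 := intervalIntegral.integral_comp_sub_right (a := a) (b := a + L)
    (fun s => f (π / L * s)) a
  rw [h1, sub_self, add_sub_cancel_left]
  have hc : π / L ≠ 0 := by positivity
  have h2 := intervalIntegral.integral_comp_mul_left (a := 0) (b := L) f hc
  rw [h2, mul_zero, smul_eq_mul]
  have h3 : π / L * L = π := by field_simp
  rw [h3, inv_div]

/-- one-dimensional factors of the gradient -/
noncomputable def uu (a L : Fin n → ℝ) (i l : Fin n) : ℝ → ℝ :=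
  (Ioo (a l) (a l + L l)).indicator fun t =>
    if l = i then π / L l * Real.cos (π / L l * (t - a l)) else Real.sin (π / L l * (t - a l))

/-- one-dimensional factors of the function -/
noncomputable def s0 (a L : Fin n → ℝ) (l : Fin n) : ℝ → ℝ :=
  (Ioo (a l) (a l + L l)).indicator fun t => Real.sin (π / L l * (t - a l))

theorem prod_indicator (b : OrthonormalBasis (Fin n) ℝ (E n)) (a L : Fin n → ℝ)
    (w : Fin n → ℝ → ℝ) (x : E n) :
    (Box b a L).indicator (fun x => ∏ l, w l ⟪b l, x⟫_ℝ) x =
      ∏ l, (Ioo (a l) (a l + L l)).indicator (w l) ⟪b l, x⟫_ℝ := by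
  classical
  by_cases hx : x ∈ Box b a L
  · rw [indicator_of_mem hx]
    refine Finset.prod_congr rfl fun l _ => ?_
    rw [indicator_of_mem (show ⟪b l, x⟫_ℝ ∈ Ioo (a l) (a l + L l) from hx l)]
  · rw [indicator_of_notMem hx]
    have : ∃ i, ⟪b i, x⟫_ℝ ∉ Ioo (a i) (a i + L i) := by
      by_contra hcon
      push Not at hcon
      exact hx fun i => hcon i
    obtain ⟨i, hi⟩ := this
    exact (Finset.prod_eq_zero (Finset.mem_univ i) (indicator_of_notMem hi _)).symm

theorem sineF_s0 (b : OrthonormalBasis (Fin n) ℝ (E n)) (a L : Fin n → ℝ) (x : E n) :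
    sineF b a L x = ∏ l, s0 a L l ⟪b l, x⟫_ℝ :=
  prod_indicator b a L (fun l t => Real.sin (π / L l * (t - a l))) x

/-- the partial derivatives of the product of sines -/
theorem fderiv_ss (b : OrthonormalBasis (Fin n) ℝ (E n)) (a L : Fin n → ℝ) (i : Fin n) (x : E n) :
    fderiv ℝ (ss b a L) x (b i) = ∏ l, (if l = i then π / L l * Real.cos (π / L l * (⟪b l, x⟫_ℝ - a l))
      else Real.sin (π / L l * (⟪b l, x⟫_ℝ - a l))) := by
  classical
  have hd : DifferentiableAt ℝ (ss b a L) x := (ss_contDiff b a L).differentiable one_ne_zero x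
  have h1 : HasLineDerivAt ℝ (ss b a L) (fderiv ℝ (ss b a L) x (b i)) x (b i) :=
    hd.hasFDerivAt.hasLineDerivAt (b i)
  unfold HasLineDerivAt at h1
  set P : ℝ := ∏ l ∈ Finset.univ.erase i, Real.sin (π / L l * (⟪b l, x⟫_ℝ - a l)) with hP
  have h2 : (fun t : ℝ => ss b a L (x + t • b i)) =
      fun t => Real.sin (π / L i * (⟪b i, x⟫_ℝ - a i + t)) * P := by
    funext t
    unfold ss
    rw [← Finset.mul_prod_erase Finset.univ _ (Finset.mem_univ i)]
    congr 1
    · congr 1
      rw [inner_add_right, inner_smul_right, real_inner_self_eq_norm_sq, b.orthonormal.1 i]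
      ring
    · refine Finset.prod_congr rfl fun l hl => ?_
      have hne : l ≠ i := Finset.ne_of_mem_erase hl
      rw [inner_add_right, inner_smul_right, b.orthonormal.2 hne]
      congr 1
      ring
  rw [h2] at h1
  have h3 : HasDerivAt (fun t : ℝ => Real.sin (π / L i * (⟪b i, x⟫_ℝ - a i + t)) * P)
      (Real.cos (π / L i * (⟪b i, x⟫_ℝ - a i + 0)) * (π / L i) * P) 0 := by
    have h4 : HasDerivAt (fun t : ℝ => π / L i * (⟪b i, x⟫_ℝ - a i + t)) (π / L i) 0 := by
      have := ((hasDerivAt_id (0 : ℝ)).const_add (⟪b i, x⟫_ℝ - a i)).const_mul (π / L i)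
      simpa using this
    exact (h4.sin).mul_const P
  rw [h1.unique h3, ← Finset.mul_prod_erase Finset.univ _ (Finset.mem_univ i)]
  rw [add_zero, if_pos rfl, hP]
  congr 1
  · ring
  · refine Finset.prod_congr rfl fun l hl => ?_
    rw [if_neg (Finset.ne_of_mem_erase hl)]

theorem sineG_uu (b : OrthonormalBasis (Fin n) ℝ (E n)) (a L : Fin n → ℝ) (i : Fin n) (x : E n) :
    ⟪b i, sineG b a L x⟫_ℝ = ∏ l, uu a L i l ⟪b l, x⟫_ℝ := by
  have h1 : ⟪b i, sineG b a L x⟫_ℝ = (Box b a L).indicator
      (fun x => fderiv ℝ (ss b a L) x (b i)) x := by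
    rw [sineG_eq]
    by_cases hx : x ∈ Box b a L
    · rw [indicator_of_mem hx, indicator_of_mem hx, real_inner_comm, grad_inner]
    · rw [indicator_of_notMem hx, indicator_of_notMem hx, inner_zero_right]
  rw [h1]
  have h2 := prod_indicator b a L (fun l t => if l = i then π / L l * Real.cos (π / L l * (t - a l))
    else Real.sin (π / L l * (t - a l))) x
  rw [show (fun x => fderiv ℝ (ss b a L) x (b i)) = fun x => ∏ l, (if l = i then
    π / L l * Real.cos (π / L l * (⟪b l, x⟫_ℝ - a l)) else Real.sin (π / L l * (⟪b l, x⟫_ℝ - a l)))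
    from funext fun x => fderiv_ss b a L i x]
  exact h2

theorem int_uu {a L : Fin n → ℝ} (hL : ∀ i, 0 < L i) (i j l : Fin n) :
    ∫ t, uu a L i l t * uu a L j l t =
      (if l = i then (if l = j then (π / L l) ^ 2 else 0) else (if l = j then 0 else 1)) *
        (L l / 2) := by
  have hpi := Real.pi_pos
  have hLl := hL l
  set k := π / L l with hk
  have key : ∀ f : ℝ → ℝ, (fun t => uu a L i l t * uu a L j l t) =
      (Ioo (a l) (a l + L l)).indicator (fun t => f (π / L l * (t - a l))) →
      ∫ t, uu a L i l t * uu a L j l t = L l / π * ∫ x in 0..π, f x := by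
    intro f hf
    rw [hf]
    exact int_shift hLl (a l) f
  by_cases h1 : l = i
  · by_cases h2 : l = j
    · rw [if_pos h1, if_pos h2, key (fun θ => k ^ 2 * Real.cos θ ^ 2)]
      · rw [intervalIntegral.integral_const_mul, integral_cos_sq]
        simp only [Real.cos_pi, Real.sin_pi, Real.cos_zero, Real.sin_zero]
        field_simp
        ring
      · funext t
        unfold uu
        by_cases ht : t ∈ Ioo (a l) (a l + L l)
        · simp only [indicator_of_mem ht, if_pos h1, if_pos h2]
          ring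
        · simp only [indicator_of_notMem ht, mul_zero]
    · rw [if_pos h1, if_neg h2, key (fun θ => k * (Real.sin θ * Real.cos θ))]
      · rw [intervalIntegral.integral_const_mul, integral_sin_mul_cos₁]
        simp
      · funext t
        unfold uu
        by_cases ht : t ∈ Ioo (a l) (a l + L l)
        · simp only [indicator_of_mem ht, if_pos h1, if_neg h2]
          ring
        · simp only [indicator_of_notMem ht, mul_zero]
  · by_cases h2 : l = j
    · rw [if_neg h1, if_pos h2, key (fun θ => k * (Real.sin θ * Real.cos θ))]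
      · rw [intervalIntegral.integral_const_mul, integral_sin_mul_cos₁]
        simp
      · funext t
        unfold uu
        by_cases ht : t ∈ Ioo (a l) (a l + L l)
        · simp only [indicator_of_mem ht, if_neg h1, if_pos h2]
          ring
        · simp only [indicator_of_notMem ht, mul_zero]
    · rw [if_neg h1, if_neg h2, key (fun θ => Real.sin θ ^ 2)]
      · rw [integral_sin_sq]
        simp only [Real.cos_pi, Real.sin_pi, Real.cos_zero, Real.sin_zero]
        field_simp
        ring
      · funext t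
        unfold uu
        by_cases ht : t ∈ Ioo (a l) (a l + L l)
        · simp only [indicator_of_mem ht, if_neg h1, if_neg h2]
          ring
        · simp only [indicator_of_notMem ht, mul_zero]

theorem int_s0 {a L : Fin n → ℝ} (hL : ∀ i, 0 < L i) (l : Fin n) :
    ∫ t, s0 a L l t * s0 a L l t = L l / 2 := by
  have hpi := Real.pi_pos
  have hLl := hL l
  have h1 : (fun t => s0 a L l t * s0 a L l t) =
      (Ioo (a l) (a l + L l)).indicator
        (fun t => (fun θ => Real.sin θ ^ 2) (π / L l * (t - a l))) := by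
    funext t
    unfold s0
    by_cases ht : t ∈ Ioo (a l) (a l + L l)
    · simp only [indicator_of_mem ht]
      ring
    · simp only [indicator_of_notMem ht, mul_zero]
  rw [h1, int_shift hLl (a l) (fun θ => Real.sin θ ^ 2), integral_sin_sq]
  simp only [Real.cos_pi, Real.sin_pi, Real.cos_zero, Real.sin_zero]
  field_simp
  ring

theorem int_sineF_sq {b : OrthonormalBasis (Fin n) ℝ (E n)} {a L : Fin n → ℝ} (hL : ∀ i, 0 < L i) :
    ∫ x, sineF b a L x ^ 2 = ∏ l, (L l / 2) := by
  have h1 : ∀ x, sineF b a L x ^ 2 = ∏ l, (fun t => s0 a L l t * s0 a L l t) ⟪b l, x⟫_ℝ := by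
    intro x
    rw [sineF_s0, sq, ← Finset.prod_mul_distrib]
  simp only [h1]
  rw [int_prod b (fun l t => s0 a L l t * s0 a L l t)]
  exact Finset.prod_congr rfl fun l _ => int_s0 hL l

theorem gram_sineG {b : OrthonormalBasis (Fin n) ℝ (E n)} {a L : Fin n → ℝ} (hL : ∀ i, 0 < L i) :
    gram b (sineG b a L) = Matrix.diagonal fun i => (π / L i) ^ 2 * ∏ l, (L l / 2) := by
  classical
  ext i j
  have h1 : gram b (sineG b a L) i j = ∏ l, ∫ t, uu a L i l t * uu a L j l t := by
    unfold gram
    rw [← int_prod b (fun l t => uu a L i l t * uu a L j l t)]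
    congr 1
    funext x
    rw [sineG_uu, sineG_uu, ← Finset.prod_mul_distrib]
  rw [h1]
  simp only [int_uu hL]
  by_cases hij : i = j
  · subst hij
    rw [Matrix.diagonal_apply_eq, Finset.prod_mul_distrib]
    congr 1
    have : ∀ l, (if l = i then (if l = i then (π / L l) ^ 2 else 0) else (if l = i then 0 else 1)) =
        if l = i then (π / L l) ^ 2 else (1 : ℝ) := by
      intro l
      by_cases h : l = i
      · simp [h]
      · simp [h]
    simp only [this]
    rw [Finset.prod_ite_eq' Finset.univ i (fun l => (π / L l) ^ 2)]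
    simp
  · rw [Matrix.diagonal_apply_ne _ hij]
    apply Finset.prod_eq_zero (Finset.mem_univ i)
    rw [if_pos rfl, if_neg hij, zero_mul]

/-- equality for the product of sines -/
theorem sine_energy {b : OrthonormalBasis (Fin n) ℝ (E n)} {a L : Fin n → ℝ} (hn : 1 ≤ n)
    (hL : ∀ i, 0 < L i) :
    energy 2 (sineG b a L) = boxValue L * lnorm 2 (sineF b a L) ^ (((n : ℝ) - 1) / n) *
      lnorm 2 (sineG b a L) ^ (1 / (n : ℝ)) := by
  have hpi := Real.pi_pos
  have hN : 0 < ∏ l, (L l / 2) := Finset.prod_pos fun l _ => by have := hL l; positivity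
  have hsq := int_sineF_sq (b := b) (a := a) hL
  have hP := (box_main hn hL (subset_refl (Box b a L)) (sine_isW0 hL) (by rw [hsq]; exact hN)).1
  rw [energy_eq hn b (sineG_memLp b a L) hP, boxValue_eq, rhs_eq hn (bv_pos hn hL).le, hsq,
    gram_trace b (sineG_memLp b a L)]
  congr 1
  rw [gram_sineG hL, Matrix.det_diagonal]
  simp only [Matrix.diagonal_apply_eq]
  set N := ∏ l, (L l / 2) with hNdef
  rw [Finset.prod_mul_distrib, Finset.prod_const, Finset.card_univ, Fintype.card_fin,
    ← Finset.sum_mul]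
  have hS := sum_pos hn hL
  have hV : 0 < ∏ i, L i := Finset.prod_pos fun i _ => hL i
  have e1 : ∏ i, (π / L i) ^ 2 = π ^ (2 * n) / (∏ i, L i) ^ 2 := by
    rw [Finset.prod_pow, Finset.prod_div_distrib, Finset.prod_const, Finset.card_univ,
      Fintype.card_fin, div_pow, ← pow_mul]
    congr 2
    ring
  have e2 : ∑ i, (π / L i) ^ 2 = π ^ 2 * ∑ i, 1 / L i ^ 2 := by
    rw [Finset.mul_sum]
    refine Finset.sum_congr rfl fun i _ => ?_
    rw [div_pow]
    ring
  rw [e1, e2]
  unfold bv
  set S := ∑ i, 1 / L i ^ 2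
  set V := ∏ i, L i
  obtain ⟨m, rfl⟩ : ∃ m, n = m + 1 := ⟨n - 1, by omega⟩
  have e3 : m + 1 - 1 = m := by omega
  rw [e3]
  have hSne : S ≠ 0 := hS.ne'
  have hVne : V ≠ 0 := hV.ne'
  field_simp
  ring

end Pool.Agent.N219.AZ
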