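import Pool.Agent.N219.AZ.Low

open MeasureTheory Set Filter Topology Metric
open scoped Real InnerProductSpace Matrix

namespace Pool.Agent.N219.AZ

variable {n : ℕ}

/-! ### the cut-off function -/

noncomputable def qf (t : ℝ) : ℝ := (max t 0) ^ 2

theorem qf_deriv (t : ℝ) : HasDerivAt qf (2 * max t 0) t := by
  rcases lt_trichotomy t 0 with h | h | h
  · have h1 : qf =ᶠ[𝓝 t] fun _ => 0 := by
      filter_upwards [gt_mem_nhds h] with s hs
      simp [qf, max_eq_right hs.le]
    rw [max_eq_right h.le, mul_zero]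
    exact (hasDerivAt_const t (0 : ℝ)).congr_of_eventuallyEq h1
  · subst h
    rw [max_self, mul_zero, hasDerivAt_iff_isLittleO_nhds_zero]
    have h1 : (fun h : ℝ => qf (0 + h) - qf 0 - h • (0 : ℝ)) =O[𝓝 0] fun h : ℝ => h ^ 2 := by
      apply Asymptotics.IsBigO.of_bound 1
      filter_upwards with s
      simp only [zero_add, qf, max_self, smul_zero, sub_zero, one_mul, norm_pow, Real.norm_eq_abs]
      rw [zero_pow (by norm_num), sub_zero, abs_pow]
      apply pow_le_pow_left₀ (abs_nonneg _)
      rw [abs_of_nonneg (le_max_right _ _)]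
      exact max_le (le_abs_self _) (abs_nonneg _)
    exact h1.trans_isLittleO (Asymptotics.isLittleO_pow_id one_lt_two)
  · have h1 : qf =ᶠ[𝓝 t] fun s => s ^ 2 := by
      filter_upwards [lt_mem_nhds h] with s hs
      simp [qf, max_eq_left hs.le]
    rw [max_eq_left h.le]
    have := (hasDerivAt_pow 2 t).congr_of_eventuallyEq h1
    simpa using this

noncomputable def eta (ε t : ℝ) : ℝ := √(qf (t - ε) + ε ^ 2) - ε

noncomputable def eta' (ε t : ℝ) : ℝ := max (t - ε) 0 / √(qf (t - ε) + ε ^ 2)

theorem qf_nonneg (t : ℝ) : 0 ≤ qf t := sq_nonneg _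

theorem eta_rad_pos {ε : ℝ} (hε : 0 < ε) (t : ℝ) : 0 < qf (t - ε) + ε ^ 2 := by
  have := qf_nonneg (t - ε)
  positivity

theorem eta_deriv {ε : ℝ} (hε : 0 < ε) (t : ℝ) : HasDerivAt (eta ε) (eta' ε t) t := by
  unfold eta eta'
  have h1 : HasDerivAt (fun t => qf (t - ε) + ε ^ 2) (2 * max (t - ε) 0) t := by
    have h2 : HasDerivAt (fun t => t - ε) 1 t := (hasDerivAt_id t).sub_const ε
    have h3 := ((qf_deriv (t - ε)).comp t h2).add_const (ε ^ 2)
    simpa using h3
  have h4 := (h1.sqrt (eta_rad_pos hε t).ne').sub_const ε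
  refine h4.congr_deriv ?_
  have : √(qf (t - ε) + ε ^ 2) ≠ 0 := (Real.sqrt_pos.2 (eta_rad_pos hε t)).ne'
  field_simp

theorem qf_continuous : Continuous qf := by unfold qf; fun_prop

theorem eta'_continuous {ε : ℝ} (hε : 0 < ε) : Continuous (eta' ε) := by
  unfold eta'
  have hq := qf_continuous
  apply Continuous.div
  · fun_prop
  · exact ((hq.comp (continuous_id.sub continuous_const)).add continuous_const).sqrt
  · intro t
    exact (Real.sqrt_pos.2 (eta_rad_pos hε t)).ne'

theorem eta_contDiff {ε : ℝ} (hε : 0 < ε) : ContDiff ℝ 1 (eta ε) := by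
  rw [contDiff_one_iff_deriv]
  refine ⟨fun t => (eta_deriv hε t).differentiableAt, ?_⟩
  have : deriv (eta ε) = eta' ε := funext fun t => (eta_deriv hε t).deriv
  rw [this]
  exact eta'_continuous hε

theorem eta_zero {ε t : ℝ} (hε : 0 < ε) (ht : t ≤ ε) : eta ε t = 0 := by
  unfold eta qf
  rw [max_eq_right (by linarith), zero_pow (by norm_num), zero_add, Real.sqrt_sq hε.le, sub_self]

theorem eta'_zero {ε t : ℝ} (ht : t ≤ ε) : eta' ε t = 0 := by
  unfold eta'
  rw [max_eq_right (by linarith), zero_div]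

theorem eta_bound {ε t : ℝ} (hε : 0 < ε) (ht : 0 ≤ t) : |eta ε t - t| ≤ 2 * ε := by
  set u := max (t - ε) 0 with hu
  have hu0 : 0 ≤ u := le_max_right _ _
  have h1 : u ≤ √(qf (t - ε) + ε ^ 2) := by
    apply Real.le_sqrt_of_sq_le
    unfold qf
    rw [← hu]
    nlinarith
  have h2 : √(qf (t - ε) + ε ^ 2) ≤ u + ε := by
    apply Real.sqrt_le_iff.2
    constructor
    · linarith
    · unfold qf
      rw [← hu]
      nlinarith
  have h3 : u ≤ t := max_le (by linarith) ht
  have h4 : t - ε ≤ u := le_max_left _ _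
  unfold eta
  rw [abs_le]
  constructor <;> linarith

theorem eta'_mem {ε : ℝ} (hε : 0 < ε) (t : ℝ) : 0 ≤ eta' ε t ∧ eta' ε t ≤ 1 := by
  set u := max (t - ε) 0 with hu
  have hu0 : 0 ≤ u := le_max_right _ _
  have hs : 0 < √(qf (t - ε) + ε ^ 2) := Real.sqrt_pos.2 (eta_rad_pos hε t)
  have h1 : u ≤ √(qf (t - ε) + ε ^ 2) := by
    apply Real.le_sqrt_of_sq_le
    unfold qf
    rw [← hu]
    nlinarith
  unfold eta'
  rw [← hu]
  exact ⟨div_nonneg hu0 hs.le, (div_le_one hs).2 h1⟩

theorem eta'_tendsto {t : ℝ} (ht : 0 < t) :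
    Tendsto (fun k : ℕ => eta' (1 / ((k : ℝ) + 1)) t) atTop (𝓝 1) := by
  have h0 : Tendsto (fun k : ℕ => 1 / ((k : ℝ) + 1)) atTop (𝓝 0) :=
    tendsto_one_div_add_atTop_nhds_zero_nat
  have h1 : Tendsto (fun ε : ℝ => eta' ε t) (𝓝 0) (𝓝 (eta' 0 t)) := by
    have hq := qf_continuous
    have : ContinuousAt (fun ε : ℝ => max (t - ε) 0 / √(qf (t - ε) + ε ^ 2)) 0 := by
      apply ContinuousAt.div
      · fun_prop
      · apply Continuous.continuousAt
        exact ((hq.comp (continuous_const.sub continuous_id)).add (continuous_id.pow 2)).sqrt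
      · simp only [sub_zero]
        unfold qf
        rw [max_eq_left ht.le]
        positivity
    exact this
  have h2 : eta' 0 t = 1 := by
    unfold eta' qf
    rw [sub_zero, max_eq_left ht.le, zero_pow (by norm_num), add_zero, Real.sqrt_sq ht.le]
    field_simp
  rw [h2] at h1
  exact h1.comp h0

/-! ### the product of sines -/

/-- the smooth product of sines -/
noncomputable def ss (b : OrthonormalBasis (Fin n) ℝ (E n)) (a L : Fin n → ℝ) (x : E n) : ℝ :=
  ∏ i, Real.sin (π / L i * (⟪b i, x⟫_ℝ - a i))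

theorem ss_contDiff (b : OrthonormalBasis (Fin n) ℝ (E n)) (a L : Fin n → ℝ) :
    ContDiff ℝ 1 (ss b a L) := by
  unfold ss
  apply contDiff_prod
  intro i _
  exact Real.contDiff_sin.comp (contDiff_const.mul ((contDiff_const.inner ℝ contDiff_id).sub
    contDiff_const))

theorem sineF_eq (b : OrthonormalBasis (Fin n) ℝ (E n)) (a L : Fin n → ℝ) :
    sineF b a L = (Box b a L).indicator (ss b a L) := rfl

theorem sineG_eq (b : OrthonormalBasis (Fin n) ℝ (E n)) (a L : Fin n → ℝ) :
    sineG b a L = (Box b a L).indicator (gradient (ss b a L)) := rfl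

/-- one-dimensional factor -/
noncomputable def ph (a L t : ℝ) : ℝ := Real.sin (max 0 (min (π / L * (t - a)) π))

theorem ph_continuous (a L : ℝ) : Continuous (ph a L) := by unfold ph; fun_prop

theorem ph_in {a L t : ℝ} (hL : 0 < L) (h0 : a < t) (h1 : t < a + L) :
    ph a L t = Real.sin (π / L * (t - a)) := by
  have hpi := Real.pi_pos
  have h2 : 0 ≤ π / L * (t - a) := mul_nonneg (by positivity) (by linarith)
  have h3 : π / L * (t - a) ≤ π := by
    calc π / L * (t - a) ≤ π / L * L := mul_le_mul_of_nonneg_left (by linarith) (by positivity)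
      _ = π := by field_simp
  rw [ph, min_eq_left h3, max_eq_right h2]

theorem ph_out {a L t : ℝ} (hL : 0 < L) (h : ¬ (a < t ∧ t < a + L)) : ph a L t = 0 := by
  have hpi := Real.pi_pos
  rw [not_and_or, not_lt, not_lt] at h
  rcases h with h | h
  · have h2 : π / L * (t - a) ≤ 0 :=
      mul_nonpos_of_nonneg_of_nonpos (by positivity) (by linarith)
    rw [ph, min_eq_left (by linarith), max_eq_left h2, Real.sin_zero]
  · have h3 : π ≤ π / L * (t - a) := by
      calc π = π / L * L := by field_simp
        _ ≤ π / L * (t - a) := mul_le_mul_of_nonneg_left (by linarith) (by positivity)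
    rw [ph, min_eq_right h3, max_eq_right hpi.le, Real.sin_pi]

theorem sineF_prod {b : OrthonormalBasis (Fin n) ℝ (E n)} {a L : Fin n → ℝ} (hL : ∀ i, 0 < L i)
    (x : E n) : sineF b a L x = ∏ i, ph (a i) (L i) ⟪b i, x⟫_ℝ := by
  classical
  by_cases hx : x ∈ Box b a L
  · rw [sineF_eq, indicator_of_mem hx]
    refine Finset.prod_congr rfl fun i _ => ?_
    rw [ph_in (hL i) (hx i).1 (hx i).2]
  · rw [sineF_eq, indicator_of_notMem hx]
    have : ∃ i, ¬ (a i < ⟪b i, x⟫_ℝ ∧ ⟪b i, x⟫_ℝ < a i + L i) := by
      by_contra hcon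
      push Not at hcon
      exact hx fun i => by
        have := hcon i
        by_contra h'
        exact h' this
    obtain ⟨i, hi⟩ := this
    exact (Finset.prod_eq_zero (Finset.mem_univ i) (ph_out (hL i) hi)).symm

theorem sineF_continuous {b : OrthonormalBasis (Fin n) ℝ (E n)} {a L : Fin n → ℝ}
    (hL : ∀ i, 0 < L i) : Continuous (sineF b a L) := by
  have : sineF b a L = fun x => ∏ i, ph (a i) (L i) ⟪b i, x⟫_ℝ := funext fun x => sineF_prod hL x
  rw [this]
  apply continuous_finsetProd
  intro i _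
  exact (ph_continuous _ _).comp (by fun_prop)

theorem box_isOpen (b : OrthonormalBasis (Fin n) ℝ (E n)) (a L : Fin n → ℝ) :
    IsOpen (Box b a L) := by
  have : Box b a L = ⋂ i, {x | a i < ⟪b i, x⟫_ℝ ∧ ⟪b i, x⟫_ℝ < a i + L i} := by
    ext x; simp [Box]
  rw [this]
  apply isOpen_iInter_of_finite
  intro i
  have hc : Continuous (fun x : E n => ⟪b i, x⟫_ℝ) := by fun_prop
  exact (isOpen_lt continuous_const hc).inter (isOpen_lt hc continuous_const)

theorem box_bounded (b : OrthonormalBasis (Fin n) ℝ (E n)) (a L : Fin n → ℝ) :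
    Bornology.IsBounded (Box b a L) := by
  rw [isBounded_iff_forall_norm_le]
  refine ⟨√(∑ i, (|a i| + |L i|) ^ 2), fun x hx => ?_⟩
  apply Real.le_sqrt_of_sq_le
  rw [← b.sum_sq_norm_inner_right x]
  apply Finset.sum_le_sum
  intro i _
  apply pow_le_pow_left₀ (norm_nonneg _)
  rw [Real.norm_eq_abs, abs_le]
  have h1 := (hx i).1
  have h2 := (hx i).2
  constructor
  · linarith [neg_abs_le (a i), abs_nonneg (L i)]
  · linarith [le_abs_self (a i), le_abs_self (L i)]

theorem box_vol_lt (b : OrthonormalBasis (Fin n) ℝ (E n)) (a L : Fin n → ℝ) :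
    volume (Box b a L) < ⊤ := (box_bounded b a L).measure_lt_top

theorem ss_pos {b : OrthonormalBasis (Fin n) ℝ (E n)} {a L : Fin n → ℝ} (hL : ∀ i, 0 < L i)
    {x : E n} (hx : x ∈ Box b a L) : 0 < ss b a L x := by
  apply Finset.prod_pos
  intro i _
  exact sin_pos_of (hL i) (by linarith [(hx i).1]) (by linarith [(hx i).2])

theorem sineF_nonneg {b : OrthonormalBasis (Fin n) ℝ (E n)} {a L : Fin n → ℝ} (hL : ∀ i, 0 < L i)
    (x : E n) : 0 ≤ sineF b a L x := by
  rw [sineF_eq]
  exact indicator_nonneg (fun x hx => (ss_pos hL hx).le) x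

/-- bounded measurable functions times the indicator of the box are in `L²` -/
theorem memLp_ind {F : Type} [NormedAddCommGroup F] (b : OrthonormalBasis (Fin n) ℝ (E n))
    (a L : Fin n → ℝ) {u : E n → F} (hu : Continuous u) : MemLp ((Box b a L).indicator u) 2 := by
  rw [memLp_indicator_iff_restrict (box_isOpen b a L).measurableSet]
  have hfin : IsFiniteMeasure (volume.restrict (Box b a L)) :=
    ⟨by rw [Measure.restrict_apply_univ]; exact box_vol_lt b a L⟩
  have hK : IsCompact (closure (Box b a L)) := (box_bounded b a L).isCompact_closure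
  obtain ⟨C, hC⟩ := hK.exists_bound_of_continuousOn hu.continuousOn
  refine MemLp.of_bound hu.aestronglyMeasurable C ?_
  filter_upwards [ae_restrict_mem (box_isOpen b a L).measurableSet] with x hx
  exact hC x (subset_closure hx)

theorem sineF_memLp (b : OrthonormalBasis (Fin n) ℝ (E n)) (a L : Fin n → ℝ) :
    MemLp (sineF b a L) 2 := memLp_ind b a L (ss_contDiff b a L).continuous

theorem sineG_memLp (b : OrthonormalBasis (Fin n) ℝ (E n)) (a L : Fin n → ℝ) :
    MemLp (sineG b a L) 2 := memLp_ind b a L (grad_cont (ss_contDiff b a L))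

/-- the approximants -/
noncomputable def Fe (b : OrthonormalBasis (Fin n) ℝ (E n)) (a L : Fin n → ℝ) (ε : ℝ) (x : E n) :
    ℝ := eta ε (sineF b a L x)

theorem Fe_hasFDeriv {b : OrthonormalBasis (Fin n) ℝ (E n)} {a L : Fin n → ℝ} (hL : ∀ i, 0 < L i)
    {ε : ℝ} (hε : 0 < ε) (x : E n) :
    ContDiffAt ℝ 1 (Fe b a L ε) x ∧
      gradient (Fe b a L ε) x = eta' ε (sineF b a L x) • sineG b a L x := by
  by_cases hx : x ∈ Box b a L
  · have h1 : Fe b a L ε =ᶠ[𝓝 x] fun y => eta ε (ss b a L y) := by
      filter_upwards [(box_isOpen b a L).mem_nhds hx] with y hy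
      rw [Fe, sineF_eq, indicator_of_mem hy]
    have hc : ContDiff ℝ 1 (fun y => eta ε (ss b a L y)) := (eta_contDiff hε).comp (ss_contDiff b a L)
    refine ⟨hc.contDiffAt.congr_of_eventuallyEq h1, ?_⟩
    rw [h1.gradient_eq, sineF_eq, sineG_eq, indicator_of_mem hx, indicator_of_mem hx]
    have hd : DifferentiableAt ℝ (ss b a L) x := (ss_contDiff b a L).differentiable one_ne_zero x
    have h2 := (eta_deriv hε (ss b a L x)).comp_hasFDerivAt x hd.hasFDerivAt
    have h3 : HasGradientAt (fun y => eta ε (ss b a L y)) (eta' ε (ss b a L x) • gradient (ss b a L) x)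
        x := by
      rw [hasGradientAt_iff_hasFDerivAt, map_smul, toDual_gradient]
      exact h2
    exact h3.gradient
  · have h0 : sineF b a L x = 0 := by rw [sineF_eq, indicator_of_notMem hx]
    have h1 : Fe b a L ε =ᶠ[𝓝 x] fun _ => 0 := by
      have h2 : ∀ᶠ y in 𝓝 x, sineF b a L y < ε :=
        (sineF_continuous hL).continuousAt.eventually (gt_mem_nhds (by rw [h0]; exact hε))
      filter_upwards [h2] with y hy
      exact eta_zero hε hy.le
    refine ⟨contDiffAt_const.congr_of_eventuallyEq h1, ?_⟩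
    rw [h1.gradient_eq, sineG_eq, indicator_of_notMem hx, smul_zero]
    exact (hasGradientAt_const x (0 : ℝ)).gradient

theorem Fe_adm {b : OrthonormalBasis (Fin n) ℝ (E n)} {a L : Fin n → ℝ} (hL : ∀ i, 0 < L i)
    {ε : ℝ} (hε : 0 < ε) : Adm (Box b a L) (Fe b a L ε) := by
  set K : Set (E n) := {x | ε ≤ sineF b a L x} with hK
  have hKc : IsClosed K := isClosed_le continuous_const (sineF_continuous hL)
  have hKB : K ⊆ Box b a L := by
    intro x hx
    by_contra h
    have : sineF b a L x = 0 := by rw [sineF_eq, indicator_of_notMem h]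
    have h2 : ε ≤ sineF b a L x := hx
    linarith
  have hKcpt : IsCompact K := Metric.isCompact_of_isClosed_isBounded hKc ((box_bounded b a L).subset hKB)
  have hsupp : ∀ x, x ∉ K → Fe b a L ε x = 0 := by
    intro x hx
    have : sineF b a L x < ε := not_le.1 hx
    exact eta_zero hε this.le
  refine ⟨contDiff_iff_contDiffAt.2 fun x => (Fe_hasFDeriv hL hε x).1,
    HasCompactSupport.intro hKcpt hsupp, ?_⟩
  refine (closure_minimal ?_ hKc).trans hKB
  intro x hx
  by_contra h
  exact hx (hsupp x h)

theorem sine_isW0 {b : OrthonormalBasis (Fin n) ℝ (E n)} {a L : Fin n → ℝ} (hL : ∀ i, 0 < L i) :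
    IsW0 2 (Box b a L) (sineF b a L) (sineG b a L) := by
  refine ⟨by rw [ofReal_two]; exact sineF_memLp b a L, by rw [ofReal_two]; exact sineG_memLp b a L,
    fun k => Fe b a L (1 / ((k : ℝ) + 1)), fun k => Fe_adm hL (by positivity), ?_, ?_⟩
  · -- convergence of the functions
    have hV := box_vol_lt b a L
    set V := (volume : Measure (E n)).real (Box b a L) with hVdef
    have hbd : ∀ k : ℕ, lnorm 2 (fun x => Fe b a L (1 / ((k : ℝ) + 1)) x - sineF b a L x) ≤
        2 * (1 / ((k : ℝ) + 1)) * √V := by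
      intro k
      set ε : ℝ := 1 / ((k : ℝ) + 1) with hε
      have hε0 : 0 < ε := by positivity
      rw [lnorm_two]
      have h1 : ∫ x, ‖Fe b a L ε x - sineF b a L x‖ ^ 2 ≤ (2 * ε) ^ 2 * V := by
        have h2 : ∀ x, ‖Fe b a L ε x - sineF b a L x‖ ^ 2 ≤
            (Box b a L).indicator (fun _ => (2 * ε) ^ 2) x := by
          intro x
          by_cases hx : x ∈ Box b a L
          · rw [indicator_of_mem hx]
            apply pow_le_pow_left₀ (norm_nonneg _)
            exact eta_bound hε0 (sineF_nonneg hL x)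
          · rw [indicator_of_notMem hx]
            have h0 : sineF b a L x = 0 := by rw [sineF_eq, indicator_of_notMem hx]
            rw [Fe, h0, eta_zero hε0 hε0.le]
            simp
        calc ∫ x, ‖Fe b a L ε x - sineF b a L x‖ ^ 2
            ≤ ∫ x, (Box b a L).indicator (fun _ => (2 * ε) ^ 2) x := by
              apply integral_mono_of_nonneg (Eventually.of_forall fun x => by positivity)
              · exact (integrableOn_const (C := (2 * ε) ^ 2) hV.ne).integrable_indicator
                  (box_isOpen b a L).measurableSet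
              · exact Eventually.of_forall h2
          _ = (2 * ε) ^ 2 * V := by
              rw [integral_indicator_const _ (box_isOpen b a L).measurableSet, smul_eq_mul, mul_comm]
      calc √(∫ x, ‖Fe b a L ε x - sineF b a L x‖ ^ 2) ≤ √((2 * ε) ^ 2 * V) := Real.sqrt_le_sqrt h1
        _ = 2 * ε * √V := by
            rw [Real.sqrt_mul (by positivity), Real.sqrt_sq (by positivity)]
    have hlim : Tendsto (fun k : ℕ => 2 * (1 / ((k : ℝ) + 1)) * √V) atTop (𝓝 0) := by
      have := ((tendsto_one_div_add_atTop_nhds_zero_nat (𝕜 := ℝ)).const_mul 2).mul_const √V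
      simpa using this
    exact squeeze_zero (fun k => lnorm_nonneg _ _) hbd hlim
  · -- convergence of the gradients
    have hG := sineG_memLp b a L
    have hGi : Integrable (fun x => ‖sineG b a L x‖ ^ 2) := hG.norm.integrable_sq
    have h1 : Tendsto (fun k : ℕ => ∫ x, ‖gradient (Fe b a L (1 / ((k : ℝ) + 1))) x -
        sineG b a L x‖ ^ 2) atTop (𝓝 (∫ _ : E n, (0 : ℝ))) := by
      apply tendsto_integral_of_dominated_convergence (fun x => ‖sineG b a L x‖ ^ 2)
      · intro k
        have hε0 : 0 < 1 / ((k : ℝ) + 1) := by positivity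
        exact (((adm_grad_memLp (Fe_adm hL hε0)).sub hG).norm.integrable_sq).aestronglyMeasurable
      · exact hGi
      · intro k
        refine Eventually.of_forall fun x => ?_
        have hε0 : 0 < 1 / ((k : ℝ) + 1) := by positivity
        rw [(Fe_hasFDeriv hL hε0 x).2]
        obtain ⟨e0, e1⟩ := eta'_mem hε0 (sineF b a L x)
        have : eta' (1 / ((k : ℝ) + 1)) (sineF b a L x) • sineG b a L x - sineG b a L x =
            (eta' (1 / ((k : ℝ) + 1)) (sineF b a L x) - 1) • sineG b a L x := by
          rw [sub_smul, one_smul]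
        rw [this, norm_smul, mul_pow, Real.norm_of_nonneg (by positivity)]
        have h3 : ‖eta' (1 / ((k : ℝ) + 1)) (sineF b a L x) - 1‖ ^ 2 ≤ 1 := by
          rw [Real.norm_eq_abs, sq_abs]
          nlinarith
        have h4 : 0 ≤ ‖sineG b a L x‖ ^ 2 := by positivity
        nlinarith
      · refine Eventually.of_forall fun x => ?_
        by_cases hx : x ∈ Box b a L
        · have hpos : 0 < sineF b a L x := by
            rw [sineF_eq, indicator_of_mem hx]; exact ss_pos hL hx
          have h2 := (((eta'_tendsto hpos).smul_const (sineG b a L x)).sub_const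
            (sineG b a L x)).norm.pow 2
          have h3 : ‖(1 : ℝ) • sineG b a L x - sineG b a L x‖ ^ 2 = 0 := by
            rw [one_smul, sub_self]; simp
          rw [h3] at h2
          refine h2.congr fun k => ?_
          rw [(Fe_hasFDeriv hL (by positivity) x).2]
        · have h0 : sineG b a L x = 0 := by rw [sineG_eq, indicator_of_notMem hx]
          have : ∀ k : ℕ, ‖gradient (Fe b a L (1 / ((k : ℝ) + 1))) x - sineG b a L x‖ ^ 2 = 0 := by
            intro k
            rw [(Fe_hasFDeriv hL (by positivity) x).2, h0]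
            simp
          simp only [this]
          exact tendsto_const_nhds
    rw [integral_zero] at h1
    have h2 := (Real.continuous_sqrt.tendsto 0).comp h1
    rw [Real.sqrt_zero] at h2
    refine h2.congr fun k => ?_
    rw [lnorm_two]
    rfl

end Pool.Agent.N219.AZ
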