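import Pool.Agent.N219.AZ.Defs

open MeasureTheory Set Filter Topology Metric
open scoped Real InnerProductSpace

namespace Pool.Agent.N219.AZ

theorem dim_sub (n : ℕ) : Module.finrank ℝ (E (n + 1)) - 1 = n := by
  rw [finrank_euclideanSpace_fin]
  rfl

/-- polar coordinates -/
theorem polar (n : ℕ) (f : E (n + 1) → ℝ) :
    ∫ z, f z = ∫ y : sphere (0 : E (n + 1)) 1 × Ioi (0 : ℝ), f ((y.2 : ℝ) • (y.1 : E (n + 1)))
      ∂((volume : Measure (E (n + 1))).toSphere.prod (.volumeIoiPow n)) := by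
  have h1 : ∫ z, f z = ∫ z : ({(0 : E (n + 1))}ᶜ : Set (E (n + 1))), f z.1
      ∂((volume : Measure (E (n + 1))).comap (↑)) := by
    rw [integral_subtype_comap (measurableSet_singleton _).compl fun z ↦ f z,
      restrict_compl_singleton]
  have h2 := (volume : Measure (E (n + 1))).measurePreserving_homeomorphUnitSphereProd.integral_comp
    (Homeomorph.measurableEmbedding _)
    (fun y : sphere (0 : E (n + 1)) 1 × Ioi (0 : ℝ) => f ((y.2 : ℝ) • (y.1 : E (n + 1))))
  rw [dim_sub] at h2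
  rw [h1, ← h2]
  congr 1
  funext z
  congr 1
  have hz : z.1 ≠ 0 := z.2
  have hz' : ‖z.1‖ ≠ 0 := norm_ne_zero_iff.2 hz
  simp [homeomorphUnitSphereProd, smul_smul, hz']

/-- the integral over the sphere of `‖T ξ‖^(-n)` -/
theorem sphere_int (m : ℕ) (T : E (m + 1) →ₗ[ℝ] E (m + 1)) (hT : LinearMap.det T ≠ 0) :
    ∫ ξ : sphere (0 : E (m + 1)) 1, (‖T (ξ : E (m + 1))‖⁻¹) ^ (m + 1)
      ∂(volume : Measure (E (m + 1))).toSphere =
      (m + 1) * ((volume : Measure (E (m + 1))).real (ball 0 1) / |LinearMap.det T|) := by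
  have hTc : Continuous T := T.continuous_of_finiteDimensional
  have hinj : ∀ x, x ≠ 0 → T x ≠ 0 := by
    intro x hx h0
    apply hx
    have hk : LinearMap.ker T = ⊥ := LinearMap.ker_eq_bot.2 (by
      have := LinearMap.isUnit_iff_isUnit_det T |>.2 (isUnit_iff_ne_zero.2 hT)
      exact ((Module.End.isUnit_iff T).1 this).1)
    have : x ∈ LinearMap.ker T := h0
    rw [hk] at this
    simpa using this
  set S : Set (E (m + 1)) := {x | ‖T x‖ < 1} with hS
  have hSm : MeasurableSet S := (isOpen_lt (hTc.norm) continuous_const).measurableSet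
  have hSpre : S = T ⁻¹' (ball 0 1) := by
    ext x; simp [hS]
  have hvol : (volume : Measure (E (m + 1))).real S =
      (volume : Measure (E (m + 1))).real (ball 0 1) / |LinearMap.det T| := by
    rw [measureReal_def, hSpre, Measure.addHaar_preimage_linearMap _ hT, ENNReal.toReal_mul,
      ENNReal.toReal_ofReal (abs_nonneg _), abs_inv, ← measureReal_def, div_eq_inv_mul]
  have hpol := polar m (S.indicator fun _ => (1 : ℝ))
  rw [integral_indicator_const (1 : ℝ) hSm, hvol, smul_eq_mul, mul_one] at hpol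
  have hin : ∀ ξ : sphere (0 : E (m + 1)) 1,
      ∫ r : Ioi (0 : ℝ), S.indicator (fun _ => (1 : ℝ)) ((r : ℝ) • (ξ : E (m + 1)))
        ∂(Measure.volumeIoiPow m) = (‖T (ξ : E (m + 1))‖⁻¹) ^ (m + 1) / (m + 1) := by
    intro ξ
    have hξ0 : (ξ : E (m + 1)) ≠ 0 := by
      intro h
      have := ξ.2
      rw [h] at this
      simp at this
    have hp : 0 < ‖T (ξ : E (m + 1))‖ := norm_pos_iff.2 (hinj _ hξ0)
    have hfun : (fun r : Ioi (0 : ℝ) => S.indicator (fun _ => (1 : ℝ)) ((r : ℝ) • (ξ : E (m + 1)))) =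
        (Iio (⟨‖T (ξ : E (m + 1))‖⁻¹, inv_pos.2 hp⟩ : Ioi (0 : ℝ))).indicator (fun _ => (1 : ℝ)) := by
      funext r
      have hr : (0 : ℝ) < r := r.2
      have hiff : ((r : ℝ) • (ξ : E (m + 1)) ∈ S) ↔
          r ∈ Iio (⟨‖T (ξ : E (m + 1))‖⁻¹, inv_pos.2 hp⟩ : Ioi (0 : ℝ)) := by
        simp only [hS, mem_setOf_eq, mem_Iio, map_smul, norm_smul, Real.norm_of_nonneg hr.le]
        rw [← Subtype.coe_lt_coe]
        simp only
        rw [← lt_div_iff₀ hp, one_div]
      by_cases h : r ∈ Iio (⟨‖T (ξ : E (m + 1))‖⁻¹, inv_pos.2 hp⟩ : Ioi (0 : ℝ))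
      · rw [indicator_of_mem h, indicator_of_mem (hiff.2 h)]
      · rw [indicator_of_notMem h, indicator_of_notMem (fun h' => h (hiff.1 h'))]
    rw [hfun, integral_indicator_const (1 : ℝ) measurableSet_Iio, measureReal_def,
      Measure.volumeIoiPow_apply_Iio, ENNReal.toReal_ofReal, smul_eq_mul, mul_one]
    positivity
  have hmeas : Measurable (fun y : sphere (0 : E (m + 1)) 1 × Ioi (0 : ℝ) =>
      S.indicator (fun _ => (1 : ℝ)) ((y.2 : ℝ) • (y.1 : E (m + 1)))) := by
    apply (measurable_const.indicator hSm).comp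
    apply Continuous.measurable
    fun_prop
  have hpos : (volume : Measure (E (m + 1))).real (ball 0 1) ≠ 0 := by
    rw [measureReal_def]
    exact (ENNReal.toReal_pos (measure_ball_pos _ _ one_pos).ne' measure_ball_lt_top.ne).ne'
  have hint : Integrable (fun y : sphere (0 : E (m + 1)) 1 × Ioi (0 : ℝ) =>
      S.indicator (fun _ => (1 : ℝ)) ((y.2 : ℝ) • (y.1 : E (m + 1))))
      ((volume : Measure (E (m + 1))).toSphere.prod (.volumeIoiPow m)) := by
    by_contra hcon
    rw [integral_undef hcon] at hpol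
    have : (0 : ℝ) < |LinearMap.det T| := abs_pos.2 hT
    exact hpos ((div_eq_zero_iff.1 hpol).resolve_right this.ne')
  rw [integral_prod _ hint] at hpol
  simp only [hin] at hpol
  rw [integral_div] at hpol
  rw [hpol]
  field_simp

end Pool.Agent.N219.AZ
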