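import Pool.Agent.N219.AZ.Max

open MeasureTheory Set Filter Topology Metric
open scoped Real InnerProductSpace Matrix

namespace Pool.Agent.N219.AZ

/-- the standard basis of the plane -/
noncomputable abbrev B2 : OrthonormalBasis (Fin 2) ℝ (E 2) := EuclideanSpace.basisFun (Fin 2) ℝ

theorem inner_B2 (i : Fin 2) (x : E 2) : ⟪B2 i, x⟫_ℝ = x i := by
  rw [← B2.repr_apply_apply]
  simp [B2]

theorem tri_isOpen (p q : ℝ) : IsOpen (Triangle p q) := by
  have h0 : Continuous (fun x : E 2 => x 0) := by fun_prop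
  have h1 : Continuous (fun x : E 2 => x 1) := by fun_prop
  exact (isOpen_lt continuous_const h0).inter ((isOpen_lt continuous_const h1).inter
    (isOpen_lt ((h0.div_const p).add (h1.div_const q)) continuous_const))

theorem tri_sub_box {p q : ℝ} (hp : 0 < p) (hq : 0 < q) :
    Triangle p q ⊆ Box B2 ![0, 0] ![p, q] := by
  rintro x ⟨h0, h1, h2⟩ i
  rw [inner_B2]
  have e0 : x 0 / p < 1 := by have : 0 < x 1 / q := by positivity
                              linarith
  have e1 : x 1 / q < 1 := by have : 0 < x 0 / p := by positivity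
                              linarith
  rw [div_lt_one hp] at e0
  rw [div_lt_one hq] at e1
  fin_cases i
  · simpa using ⟨h0, e0⟩
  · simpa using ⟨h1, e1⟩

/-- the value for rectangles -/
theorem boxValue_two {L : Fin 2 → ℝ} (hL : ∀ i, 0 < L i) :
    boxValue L = √(2 * π / √(L 0 ^ 2 + L 1 ^ 2)) := by
  have hpi := Real.pi_pos
  have h0 := hL 0
  have h1 := hL 1
  have e1 : bv L = (2 * π / √(L 0 ^ 2 + L 1 ^ 2)) ^ 2 := by
    unfold bv
    rw [div_pow, Real.sq_sqrt (by positivity)]
    simp only [Fin.prod_univ_two, Fin.sum_univ_two]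
    norm_num
    field_simp
    ring
  have h2 : (0 : ℝ) ≤ 2 * π / √(L 0 ^ 2 + L 1 ^ 2) := by positivity
  rw [boxValue_eq, e1]
  set s := 2 * π / √(L 0 ^ 2 + L 1 ^ 2) with hs
  rw [Real.sqrt_eq_rpow, ← Real.rpow_natCast, ← Real.rpow_mul h2]
  congr 1
  norm_num

/-- the conserved quantity -/
noncomputable def dd (c p : ℝ) (x : E 2) : ℝ := x 1 + c * x 0 - c * p

/-- the improved weight -/
noncomputable def zz (c p q : ℝ) (x : E 2) : ℝ := dd c p x ^ 2 / ((|c| + q / p) ^ 2 * p ^ 2)

theorem dd_bound {c p q : ℝ} (hp : 0 < p) (hq : 0 < q) {x : E 2} (hx : x ∈ Triangle p q) :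
    |dd c p x| < (|c| + q / p) * (p - x 0) := by
  obtain ⟨h0, h1, h2⟩ := hx
  have e1 : x 1 / q < (p - x 0) / p := by
    rw [sub_div, div_self hp.ne']
    linarith
  have e2 : x 1 < q / p * (p - x 0) := by
    rw [div_lt_iff₀ hq] at e1
    calc x 1 < (p - x 0) / p * q := e1
      _ = q / p * (p - x 0) := by ring
  have ht : 0 < p - x 0 := by
    by_contra hcon
    have : q / p * (p - x 0) ≤ 0 := mul_nonpos_of_nonneg_of_nonpos (by positivity) (not_lt.1 hcon)
    linarith
  have e3 : dd c p x = x 1 - c * (p - x 0) := by unfold dd; ring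
  rw [e3]
  calc |x 1 - c * (p - x 0)| ≤ |x 1| + |c * (p - x 0)| := abs_sub _ _
    _ = x 1 + |c| * (p - x 0) := by rw [abs_mul, abs_of_pos ht, abs_of_pos h1]
    _ < (|c| + q / p) * (p - x 0) := by
        rw [add_mul]; linarith

/-- the length of the chord -/
noncomputable def ll (c p q : ℝ) (x : E 2) : ℝ := p * (1 - zz c p q x)

theorem zz_lt {c p q : ℝ} (hp : 0 < p) (hq : 0 < q) {x : E 2} (hx : x ∈ Triangle p q) :
    zz c p q x < 1 ∧ x 0 < ll c p q x := by
  have h1 := dd_bound (c := c) hp hq hx
  set K := |c| + q / p with hK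
  have hKp : 0 < K := by have := abs_nonneg c; positivity
  have hx0 : 0 < x 0 := hx.1
  set s := |dd c p x| / K with hs
  have hs0 : 0 ≤ s := by positivity
  have h2 : s < p - x 0 := by
    rw [hs, div_lt_iff₀ hKp]
    linarith
  have h3 : zz c p q x = (s / p) ^ 2 := by
    unfold zz
    rw [hs, ← hK, div_pow, div_pow, sq_abs, div_div]
  have h4 : s / p < 1 := by rw [div_lt_one hp]; linarith
  have h5 : 0 ≤ s / p := by positivity
  constructor
  · rw [h3]; nlinarith
  · unfold ll
    rw [h3]
    have h6 : p * (s / p) = s := by field_simp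
    have h7 : p * (s / p) ^ 2 ≤ s := by
      calc p * (s / p) ^ 2 = (p * (s / p)) * (s / p) := by ring
        _ = s * (s / p) := by rw [h6]
        _ ≤ s * 1 := mul_le_mul_of_nonneg_left h4.le hs0
        _ = s := mul_one s
    have h8 : p * (1 - (s / p) ^ 2) = p - p * (s / p) ^ 2 := by ring
    rw [h8]
    linarith

theorem zz_nonneg (c p q : ℝ) (x : E 2) : 0 ≤ zz c p q x := by
  unfold zz; positivity

/-- the direction -/
noncomputable def xi (c : ℝ) : E 2 := B2 0 - c • B2 1

theorem xi_zero (c : ℝ) : xi c 0 = 1 := by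
  have := inner_B2 0 (xi c)
  rw [← this, xi, inner_sub_right, inner_smul_right, real_inner_self_eq_norm_sq,
    B2.orthonormal.1 0, B2.orthonormal.2 (show (0 : Fin 2) ≠ 1 by decide)]
  norm_num

theorem xi_one (c : ℝ) : xi c 1 = -c := by
  have := inner_B2 1 (xi c)
  rw [← this, xi, inner_sub_right, inner_smul_right, real_inner_self_eq_norm_sq,
    B2.orthonormal.1 1, B2.orthonormal.2 (show (1 : Fin 2) ≠ 0 by decide)]
  norm_num

/-- the improved Poincaré inequality in the triangle -/
theorem tri_ineq {p q : ℝ} (hp : 0 < p) (hq : 0 < q) (c : ℝ) {F : E 2 → ℝ}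
    (hF : Adm (Triangle p q) F) :
    ∫ x, ((π / p) ^ 2 * (1 + min (zz c p q x) 1)) * F x ^ 2 ≤ ∫ x, (fderiv ℝ F x (xi c)) ^ 2 := by
  have hpi := Real.pi_pos
  have hzc : Continuous (zz c p q) := by unfold zz dd; fun_prop
  have hlc : Continuous (ll c p q) := by unfold ll; fun_prop
  have hlpos : ∀ x ∈ Triangle p q, 0 < ll c p q x := fun x hx => hx.1.trans (zz_lt hp hq hx).2
  have hsin : ∀ x ∈ Triangle p q, Real.sin (π / ll c p q x * x 0) ≠ 0 := by
    intro x hx
    exact (sin_pos_of (hlpos x hx) hx.1 (zz_lt hp hq hx).2).ne'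
  have hx0c : Continuous (fun x : E 2 => x 0) := by fun_prop
  have hkc : ContinuousOn (fun x => π / ll c p q x) (Triangle p q) :=
    continuousOn_const.div hlc.continuousOn fun x hx => (hlpos x hx).ne'
  have key := ground_state (tri_isOpen p q) hF (ξ := xi c)
    (W := fun x => π / ll c p q x * Real.cos (π / ll c p q x * x 0) /
      Real.sin (π / ll c p q x * x 0))
    (V := fun x => (π / ll c p q x) ^ 2)
    ((hkc.mul (Real.continuous_cos.comp_continuousOn (hkc.mul hx0c.continuousOn))).div
      (Real.continuous_sin.comp_continuousOn (hkc.mul hx0c.continuousOn)) hsin)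
    (hkc.pow 2) (by
      intro x hx
      unfold HasLineDerivAt
      have hll : ∀ t : ℝ, ll c p q (x + t • xi c) = ll c p q x := by
        intro t
        unfold ll zz dd
        have e0 : (x + t • xi c) 0 = x 0 + t := by
          simp [xi_zero]
        have e1 : (x + t • xi c) 1 = x 1 - c * t := by
          simp [xi_one]; ring
        rw [e0, e1]
        congr 3
        ring
      have hfun : (fun t : ℝ => π / ll c p q (x + t • xi c) *
          Real.cos (π / ll c p q (x + t • xi c) * (x + t • xi c) 0) /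
          Real.sin (π / ll c p q (x + t • xi c) * (x + t • xi c) 0)) =
          fun t => (fun s => π / ll c p q x * Real.cos (π / ll c p q x * s) /
            Real.sin (π / ll c p q x * s)) (x 0 + t) := by
        funext t
        have e0 : (x + t • xi c) 0 = x 0 + t := by
          simp [xi_zero]
        rw [hll, e0]
      rw [hfun]
      have h1 : HasDerivAt (fun t : ℝ => x 0 + t) 1 0 := by
        simpa using (hasDerivAt_id (0 : ℝ)).const_add (x 0)
      have h2 := cot_deriv (π / ll c p q x) (t := x 0 + 0) (by rw [add_zero]; exact hsin x hx)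
      have h3 := h2.comp (0 : ℝ) h1
      refine h3.congr_deriv ?_
      rw [add_zero, mul_one])
  refine le_trans ?_ key
  have hFc := hF.1.continuous
  have hint1 : Integrable (fun x => ((π / p) ^ 2 * (1 + min (zz c p q x) 1)) * F x ^ 2) := by
    have : (fun x => ((π / p) ^ 2 * (1 + min (zz c p q x) 1)) * F x ^ 2) =
        fun x => (((π / p) ^ 2 * (1 + min (zz c p q x) 1)) * F x) * F x := by
      funext x; ring
    rw [this]
    refine Continuous.integrable_of_hasCompactSupport ?_ hF.2.1.mul_left
    fun_prop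
  have hint2 : Integrable (fun x => (π / ll c p q x) ^ 2 * F x ^ 2) := by
    have h1 : Continuous (fun x => (π / ll c p q x) ^ 2 * F x) :=
      continuous_mul_of_tsupport (tri_isOpen p q) (hkc.pow 2) hFc hF.2.2
    have : (fun x => (π / ll c p q x) ^ 2 * F x ^ 2) =
        fun x => ((π / ll c p q x) ^ 2 * F x) * F x := by
      funext x; ring
    rw [this]
    exact (h1.mul hFc).integrable_of_hasCompactSupport hF.2.1.mul_left
  apply integral_mono hint1 hint2
  intro x
  by_cases hx : x ∈ Triangle p q
  · simp only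
    apply mul_le_mul_of_nonneg_right _ (sq_nonneg _)
    have hz := (zz_lt (c := c) hp hq hx).1
    have hz0 := zz_nonneg c p q x
    rw [min_eq_left hz.le]
    set z := zz c p q x with hzdef
    have e1 : π / ll c p q x = π / p * (1 / (1 - z)) := by
      unfold ll
      rw [← hzdef]
      have : 1 - z ≠ 0 := by linarith
      field_simp
    rw [e1, mul_pow]
    apply mul_le_mul_of_nonneg_left _ (sq_nonneg _)
    rw [div_pow, one_pow, le_div_iff₀ (by have : 0 < 1 - z := by linarith
                                          positivity)]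
    nlinarith [mul_nonneg hz0 hz0, mul_nonneg (mul_nonneg hz0 hz0) hz0]
  · have h0 : F x = 0 := by
      have : x ∉ tsupport F := fun h => hx (hF.2.2 h)
      exact image_eq_zero_of_notMem_tsupport this
    simp [h0]

theorem line_null (c p : ℝ) : ∀ᵐ x : E 2, dd c p x ≠ 0 := by
  set ℓ : E 2 →ₗ[ℝ] ℝ :=
    { toFun := fun x => x 1 + c * x 0
      map_add' := by intro x y; simp; ring
      map_smul' := by intro r x; simp; ring } with hℓ
  have hsurj : Function.Surjective ℓ := by
    intro y
    refine ⟨y • B2 1, ?_⟩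
    have e0 : (y • B2 1) 0 = 0 := by simp [B2]
    have e1 : (y • B2 1) 1 = y := by simp [B2]
    change (y • B2 1) 1 + c * (y • B2 1) 0 = y
    rw [e0, e1]; ring
  have h := (ae_comp_linearMap_mem_iff (L := ℓ) (volume : Measure (E 2)) (volume : Measure ℝ) hsurj
    (s := {c * p}ᶜ) (measurableSet_singleton _).compl).2 (by
      rw [ae_iff]
      simp)
  filter_upwards [h] with x hx hx0
  apply hx
  change x 1 + c * x 0 = c * p
  unfold dd at hx0
  linarith

/-- strict directional inequality in `W_0^{1,2}` of the triangle -/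
theorem tri_strict {p q : ℝ} (hp : 0 < p) (hq : 0 < q) (c : ℝ) {f : E 2 → ℝ} {g : E 2 → E 2}
    (h : IsW0 2 (Triangle p q) f g) (hN : 0 < ∫ x, f x ^ 2) :
    (π / p) ^ 2 * ∫ x, f x ^ 2 < ∫ x, ⟪g x, xi c⟫_ℝ ^ 2 := by
  have hpi := Real.pi_pos
  obtain ⟨hf, hg⟩ := w0_memLp h
  have hzc : Continuous (zz c p q) := by unfold zz dd; fun_prop
  have hk : 0 < (π / p) ^ 2 := by positivity
  have h1 := w0_ineq h (ω := fun x => (π / p) ^ 2 * (1 + min (zz c p q x) 1))
    (C := (π / p) ^ 2 * 2) (by
      have : Continuous (fun x => (π / p) ^ 2 * (1 + min (zz c p q x) 1)) := by fun_prop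
      exact this.measurable) (fun x => by
      have h0 := zz_nonneg c p q x
      have h2 : 0 ≤ min (zz c p q x) 1 := le_min h0 zero_le_one
      have h3 : min (zz c p q x) 1 ≤ 1 := min_le_right _ _
      rw [abs_of_nonneg (by positivity)]
      apply mul_le_mul_of_nonneg_left _ hk.le
      linarith) (xi c) (fun F hF => tri_ineq hp hq c hF)
  refine lt_of_lt_of_le ?_ h1
  have hfi : Integrable (fun x => f x ^ 2) := by
    have := hf.norm.integrable_sq
    simpa using this
  have hmi : Integrable (fun x => min (zz c p q x) 1 * f x ^ 2) := by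
    refine hfi.bdd_mul (c := 1) ?_ ?_
    · have : Continuous (fun x => min (zz c p q x) 1) := by fun_prop
      exact this.aestronglyMeasurable
    · refine Eventually.of_forall fun x => ?_
      have h2 : 0 ≤ min (zz c p q x) 1 := le_min (zz_nonneg c p q x) zero_le_one
      rw [Real.norm_of_nonneg h2]
      exact min_le_right _ _
  have e : ∫ x, (π / p) ^ 2 * (1 + min (zz c p q x) 1) * f x ^ 2 =
      (π / p) ^ 2 * ((∫ x, f x ^ 2) + ∫ x, min (zz c p q x) 1 * f x ^ 2) := by
    rw [← integral_add hfi hmi, ← integral_const_mul]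
    congr 1
    funext x
    ring
  rw [e]
  apply mul_lt_mul_of_pos_left _ hk
  have hpos : 0 < ∫ x, min (zz c p q x) 1 * f x ^ 2 := by
    have hnn : 0 ≤ᵐ[volume] fun x => min (zz c p q x) 1 * f x ^ 2 := Eventually.of_forall fun x => by
      have h2 : 0 ≤ min (zz c p q x) 1 := le_min (zz_nonneg c p q x) zero_le_one
      simp only [Pi.zero_apply]
      positivity
    rcases (integral_nonneg_of_ae hnn).eq_or_lt with h0 | h0
    · exfalso
      have h3 := (integral_eq_zero_iff_of_nonneg_ae hnn hmi).1 h0.symm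
      have h4 : ∫ x, f x ^ 2 = 0 := by
        rw [integral_eq_zero_of_ae]
        filter_upwards [h3, line_null c p] with x hx hx2
        simp only [Pi.zero_apply, mul_eq_zero] at hx ⊢
        rcases hx with hx | hx
        · exfalso
          have hK : 0 < |c| + q / p := by have := abs_nonneg c; positivity
          have : 0 < zz c p q x := by
            unfold zz
            have := sq_pos_of_ne_zero hx2
            positivity
          have h5 : 0 < min (zz c p q x) 1 := lt_min this one_pos
          linarith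
        · exact hx
      linarith
    · exact h0
  linarith

/-- strict inequality for nonzero elements of `W_0^{1,2}` of the triangle -/
theorem tri_main {p q : ℝ} (hp : 0 < p) (hq : 0 < q) {f : E 2 → ℝ} {g : E 2 → E 2}
    (h : IsW0 2 (Triangle p q) f g) (hN : 0 < ∫ x, f x ^ 2) :
    (gram B2 g).PosDef ∧ bv ![p, q] * (∫ x, f x ^ 2) ^ (2 - 1) * (∫ x, ‖g x‖ ^ 2) <
      ((2 : ℕ) : ℝ) ^ 2 * (gram B2 g).det := by
  have hpi := Real.pi_pos
  have hL : ∀ i, 0 < (![p, q] : Fin 2 → ℝ) i := by intro i; fin_cases i <;> simpa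
  obtain ⟨hf, hg⟩ := w0_memLp h
  have hP := (box_main (by norm_num) hL (tri_sub_box hp hq) h hN).1
  refine ⟨hP, ?_⟩
  set N := ∫ x, f x ^ 2 with hNdef
  set M := gram B2 g with hM
  have hdet : M.det = M 0 0 * M 1 1 - M 0 1 * M 0 1 := by
    rw [Matrix.det_fin_two, hM, gram_symm B2 g 1 0]
  have hdpos : 0 < M.det := hP.det_pos
  have m11 : 0 < M 1 1 := hP.diag_pos
  have m00 : 0 < M 0 0 := hP.diag_pos
  have hs : (π / p) ^ 2 * N * M 1 1 < M.det := by
    have h1 := tri_strict hp hq (M 0 1 / M 1 1) h hN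
    rw [quad_eq B2 hg] at h1
    simp only [inner_B2, Fin.sum_univ_two, xi_zero, xi_one] at h1
    rw [← hM, ← hNdef] at h1
    have e : 1 * M 0 0 * 1 + 1 * M 0 1 * -(M 0 1 / M 1 1) +
        (-(M 0 1 / M 1 1) * M 1 0 * 1 + -(M 0 1 / M 1 1) * M 1 1 * -(M 0 1 / M 1 1)) =
        M.det / M 1 1 := by
      have e1 : M 1 0 = M 0 1 := gram_symm B2 g 1 0
      rw [hdet, e1]
      field_simp
      ring
    rw [e] at h1
    rwa [lt_div_iff₀ m11] at h1
  have hw : (π / q) ^ 2 * N * M 0 0 ≤ M.det := by
    have hκ : ∀ j, 0 < (π / (![p, q] : Fin 2 → ℝ) j) ^ 2 * N := fun j => by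
      have := hL j; positivity
    have h1 := trace_le B2 hg hκ (fun ξ j => box_ineq hL (tri_sub_box hp hq) h ξ j) 0
    have e : (Finset.univ.erase (0 : Fin 2)) = {1} := by decide
    rw [e, Finset.prod_singleton] at h1
    simp only [Matrix.cons_val_one, Matrix.cons_val_fin_one] at h1
    rw [← hM] at h1
    have hq2 : 0 < (π / q) ^ 2 * N := by positivity
    calc (π / q) ^ 2 * N * M 0 0 ≤ (π / q) ^ 2 * N * (M.det * ((π / q) ^ 2 * N)⁻¹) :=
          mul_le_mul_of_nonneg_left h1 hq2.le
      _ = M.det := by field_simp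
  rw [gram_trace B2 hg, Fin.sum_univ_two, ← hM]
  unfold bv
  simp only [Fin.prod_univ_two, Fin.sum_univ_two, Matrix.cons_val_zero, Matrix.cons_val_one,
    Matrix.cons_val_fin_one]
  norm_num
  have e3 : 4 * π ^ 2 / ((p * q) ^ 2 * ((p ^ 2)⁻¹ + (q ^ 2)⁻¹)) * N * (M 0 0 + M 1 1) =
      4 * (π ^ 2 * N * (M 0 0 + M 1 1) / (p ^ 2 + q ^ 2)) := by
    field_simp
    ring
  rw [e3]
  apply mul_lt_mul_of_pos_left _ (by norm_num)
  rw [div_lt_iff₀ (by positivity)]
  have e4 : π ^ 2 * N * M 1 1 < M.det * p ^ 2 := by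
    have : (π / p) ^ 2 * N * M 1 1 = π ^ 2 * N * M 1 1 / p ^ 2 := by
      rw [div_pow]; ring
    rw [this, div_lt_iff₀ (by positivity)] at hs
    exact hs
  have e5 : π ^ 2 * N * M 0 0 ≤ M.det * q ^ 2 := by
    have : (π / q) ^ 2 * N * M 0 0 = π ^ 2 * N * M 0 0 / q ^ 2 := by
      rw [div_pow]; ring
    rw [this, div_le_iff₀ (by positivity)] at hw
    exact hw
  nlinarith

/-- no extremal function for the triangle -/
theorem tri_no_extremal {p q : ℝ} (hp : 0 < p) (hq : 0 < q) (f : E 2 → ℝ) (g : E 2 → E 2) :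
    ¬ IsExtremal 2 (Triangle p q) (boxValue ![p, q]) f g := by
  rintro ⟨h, hne, heq⟩
  have hL : ∀ i, 0 < (![p, q] : Fin 2 → ℝ) i := by intro i; fin_cases i <;> simpa
  obtain ⟨hf, hg⟩ := w0_memLp h
  have hfi : Integrable (fun x => f x ^ 2) := by
    have := hf.norm.integrable_sq
    simpa using this
  have hN : 0 < ∫ x, f x ^ 2 := by
    have hnn : 0 ≤ᵐ[volume] fun x => f x ^ 2 := Eventually.of_forall fun x => sq_nonneg _
    rcases (integral_nonneg_of_ae hnn).eq_or_lt with h0 | h0
    · exfalso
      have h3 := (integral_eq_zero_iff_of_nonneg_ae hnn hfi).1 h0.symm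
      apply hne
      filter_upwards [h3] with x hx
      simpa using hx
    · exact h0
  obtain ⟨hP, hlt⟩ := tri_main hp hq h hN
  have hb := (bv_pos (by norm_num) hL).le
  rw [energy_eq (by norm_num) B2 hg hP, boxValue_eq, rhs_eq (by norm_num) hb] at heq
  have hT : 0 ≤ ∫ x, ‖g x‖ ^ 2 := integral_nonneg fun x => sq_nonneg _
  have := Real.rpow_lt_rpow (by positivity) hlt (show (0 : ℝ) < 1 / (2 * ((2 : ℕ) : ℝ)) by norm_num)
  exact absurd heq this.ne'

/-- an orthonormal basis of the plane adapted to the hypotenuse -/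
theorem exists_basis {p q : ℝ} (hp : 0 < p) (hq : 0 < q) :
    ∃ b : OrthonormalBasis (Fin 2) ℝ (E 2), ∀ x : E 2,
      ⟪b 0, x⟫_ℝ = (p * x 0 - q * x 1) / √(p ^ 2 + q ^ 2) ∧
      ⟪b 1, x⟫_ℝ = (q * x 0 + p * x 1) / √(p ^ 2 + q ^ 2) := by
  set D := √(p ^ 2 + q ^ 2) with hD
  have hDpos : 0 < D := Real.sqrt_pos.2 (by positivity)
  have hD2 : D ^ 2 = p ^ 2 + q ^ 2 := Real.sq_sqrt (by positivity)
  set v : Fin 2 → E 2 := ![(p / D) • B2 0 - (q / D) • B2 1, (q / D) • B2 0 + (p / D) • B2 1] with hv
  have i0 : ∀ x : E 2, ⟪v 0, x⟫_ℝ = (p * x 0 - q * x 1) / D := by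
    intro x
    simp only [hv, Matrix.cons_val_zero, inner_sub_left, inner_smul_left, inner_B2]
    simp
    ring
  have i1 : ∀ x : E 2, ⟪v 1, x⟫_ℝ = (q * x 0 + p * x 1) / D := by
    intro x
    simp only [hv, Matrix.cons_val_one, Matrix.cons_val_fin_one, inner_add_left, inner_smul_left,
      inner_B2]
    simp
    ring
  have v00 : v 0 0 = p / D := by simp [hv, B2]
  have v01 : v 0 1 = -(q / D) := by simp [hv, B2]
  have v10 : v 1 0 = q / D := by simp [hv, B2]
  have v11 : v 1 1 = p / D := by simp [hv, B2]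
  have hon : Orthonormal ℝ v := by
    constructor
    · intro i
      have : ‖v i‖ ^ 2 = 1 := by
        rw [← real_inner_self_eq_norm_sq]
        fin_cases i
        · change ⟪v 0, v 0⟫_ℝ = 1
          rw [i0, v00, v01]
          field_simp
          rw [hD2]; ring
        · change ⟪v 1, v 1⟫_ℝ = 1
          rw [i1, v10, v11]
          field_simp
          rw [hD2]; ring
      have h0 := norm_nonneg (v i)
      nlinarith
    · intro i j hij
      fin_cases i <;> fin_cases j
      · exact absurd rfl hij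
      · change ⟪v 0, v 1⟫_ℝ = 0
        rw [i0, v10, v11]
        field_simp
        ring
      · change ⟪v 1, v 0⟫_ℝ = 0
        rw [i1, v00, v01]
        field_simp
        ring
      · exact absurd rfl hij
  have hcard : Fintype.card (Fin 2) = Module.finrank ℝ (E 2) := by simp
  set B := basisOfOrthonormalOfCardEqFinrank hon hcard with hB
  have hBv : ⇑B = v := coe_basisOfOrthonormalOfCardEqFinrank hon hcard
  refine ⟨B.toOrthonormalBasis (by rw [hBv]; exact hon), fun x => ?_⟩
  simp only [Module.Basis.coe_toOrthonormalBasis, hBv]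
  exact ⟨i0 x, i1 x⟩

/-- the best constant of the triangle -/
theorem tri_best {p q : ℝ} (hp : 0 < p) (hq : 0 < q) :
    BestConstant 2 (Triangle p q) (boxValue ![p, q]) := by
  have hpi := Real.pi_pos
  have hL : ∀ i, 0 < (![p, q] : Fin 2 → ℝ) i := by intro i; fin_cases i <;> simpa
  refine ⟨valid_of_subset le_rfl hL (tri_sub_box hp hq), fun A hA => ?_⟩
  obtain ⟨b, hb⟩ := exists_basis hp hq
  set D := √(p ^ 2 + q ^ 2) with hD
  have hDpos : 0 < D := Real.sqrt_pos.2 (by positivity)
  have hD2 : D ^ 2 = p ^ 2 + q ^ 2 := Real.sq_sqrt (by positivity)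
  set H := p * q / D with hH
  have hHpos : 0 < H := by positivity
  have hbound : ∀ h ∈ Ioo 0 H, A ≤ √(2 * π / √((D * (1 - h / H)) ^ 2 + h ^ 2)) := by
    rintro h ⟨h0, h1⟩
    have hfr : 0 < 1 - h / H := by
      have : h / H < 1 := (div_lt_one hHpos).2 h1
      linarith
    have hL' : ∀ i, 0 < (![D * (1 - h / H), h] : Fin 2 → ℝ) i := by
      intro i
      fin_cases i
      · simpa using mul_pos hDpos hfr
      · simpa using h0
    have hsub : Box b ![-(q * (H - h) / p), H - h] ![D * (1 - h / H), h] ⊆ Triangle p q := by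
      intro x hx
      have hx0 := hx 0
      have hx1 := hx 1
      simp only [Matrix.cons_val_zero, Matrix.cons_val_one, Matrix.cons_val_fin_one] at hx0 hx1
      obtain ⟨e0, e1⟩ := hb x
      set s := ⟪b 0, x⟫_ℝ with hs
      set t := ⟪b 1, x⟫_ℝ with ht
      have hHh : 0 < H - h := by linarith
      have ex0 : x 0 * D = p * s + q * t := by
        rw [e0, e1]
        field_simp
        rw [hD2]; ring
      have ex1 : x 1 * D = p * t - q * s := by
        rw [e0, e1]
        field_simp
        rw [hD2]; ring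
      have htpos : H - h < t := hx1.1
      have htH : t < H := by linarith [hx1.2]
      have hs0 : -(q * (H - h) / p) < s := hx0.1
      have hs1 : s < p * (H - h) / q := by
        have e5 : -(q * (H - h) / p) + D * (1 - h / H) = p * (H - h) / q := by
          have e6 : D * (1 - h / H) = (p ^ 2 + q ^ 2) * (H - h) / (p * q) := by
            have e7 : 1 - h / H = (H - h) / H := by field_simp
            rw [e7]
            have e8 : (H - h) / H = (H - h) * D / (p * q) := by
              rw [hH]; field_simp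
            rw [e8, ← hD2]
            ring
          rw [e6]
          field_simp
          ring
        rw [← e5]
        exact hx0.2
      refine ⟨?_, ?_, ?_⟩
      · have h5 : 0 < p * s + q * t := by
          have h6 : -(q * (H - h)) < p * s := by
            rw [← neg_div, div_lt_iff₀ hp] at hs0
            linarith
          nlinarith
        rw [← ex0] at h5
        exact pos_of_mul_pos_left h5 hDpos.le |> fun h => h
      · have h5 : 0 < p * t - q * s := by
          have h6 : q * s < p * (H - h) := by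
            rw [lt_div_iff₀ hq] at hs1
            linarith
          nlinarith
        rw [← ex1] at h5
        exact pos_of_mul_pos_left h5 hDpos.le
      · have h7 : q * x 0 + p * x 1 < p * q := by
          rw [e1, hH] at htH
          exact (div_lt_div_iff_of_pos_right hDpos).1 htH
        have h8 : x 0 / p + x 1 / q = (q * x 0 + p * x 1) / (p * q) := by
          field_simp
        rw [h8, div_lt_one (by positivity)]
        exact h7
    have h9 := upper (b := b) le_rfl hL' hsub hA
    rw [boxValue_two hL'] at h9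
    simpa only [Matrix.cons_val_zero, Matrix.cons_val_one, Matrix.cons_val_fin_one] using h9
  have hlim : Tendsto (fun h : ℝ => √(2 * π / √((D * (1 - h / H)) ^ 2 + h ^ 2))) (𝓝[>] 0)
      (𝓝 (√(2 * π / √((D * (1 - 0 / H)) ^ 2 + 0 ^ 2)))) := by
    apply Tendsto.mono_left _ nhdsWithin_le_nhds
    apply ContinuousAt.tendsto
    apply ContinuousAt.sqrt
    apply ContinuousAt.div continuousAt_const
    · fun_prop
    · simp only [zero_div, sub_zero, mul_one]
      rw [zero_pow (by norm_num), add_zero, Real.sqrt_sq hDpos.le]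
      exact hDpos.ne'
  have hfin : A ≤ √(2 * π / √((D * (1 - 0 / H)) ^ 2 + 0 ^ 2)) := by
    refine ge_of_tendsto hlim ?_
    filter_upwards [Ioo_mem_nhdsGT hHpos] with h hh
    exact hbound h hh
  rw [boxValue_two hL]
  simp only [Matrix.cons_val_zero, Matrix.cons_val_one, Matrix.cons_val_fin_one]
  rw [zero_div, sub_zero, mul_one, zero_pow (by norm_num), add_zero, Real.sqrt_sq hDpos.le] at hfin
  exact hfin

end Pool.Agent.N219.AZ
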